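import Pool.Agent.H93.CP.All
import Pool.Agent.H16.CX.Local

/-!
# The topological Vaught conjecture and actions on the Cantor space

Q1 (the topological Vaught conjecture): every Polish group `G` has countably or perfectly many
orbits on every Borel `G`-space `X`.

* For all `G` and `X` there are a Polish group `Γ` and a continuous action of `Γ` on the Cantor
  space which has countably (perfectly) many orbits if and only if `X` has, and closed subgroups
  `H`, `K` of a Polish group `L` whose double cosets have the same property. So Q1 is equivalent to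
  its case of continuous actions on the Cantor space, and to its case of double cosets.
* If `G` is non-archimedean, so are `Γ` and `L`, and one may take for `Γ` a closed subgroup of the
  homeomorphism group of the Cantor space. So Vaught's conjecture for all sentences of `L_{ω₁ω}`
  is equivalent to: every closed subgroup of `Homeo(2^ℕ)` has countably or perfectly many orbits on
  `2^ℕ`.
* For the group `S_∞` itself the dichotomy is true for all continuous actions on the Cantor space.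
-/

set_option autoImplicit false

open Set Filter Topology

namespace Pool.Agent.Results.MP_5607ba_lc.CompactSpaces

/-- The Cantor space. -/
abbrev Cantor : Type := ℕ → Bool

/-- A countable set meets all classes of `R`. -/
def CountablyMany {X : Type} (R : X → X → Prop) : Prop :=
  ∃ A : Set X, A.Countable ∧ ∀ x : X, ∃ a ∈ A, R x a

/-- A Borel map from the Cantor space takes distinct points to points of distinct classes. -/
def PerfectlyMany {X : Type} [MeasurableSpace X] (R : X → X → Prop) : Prop :=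
  ∃ f : Cantor → X, Measurable f ∧ ∀ u v, u ≠ v → ¬ R (f u) (f v)

/-- The orbit equivalence relation of an action of `G` on `X`. -/
def SameOrbit (G X : Type) [Group G] [MulAction G X] (x y : X) : Prop := ∃ g : G, g • x = y

/-- `x` and `y` are in the same double coset of `H` and `K`. -/
def SameDoubleCoset {L : Type} [Group L] (H K : Subgroup L) (x y : L) : Prop :=
  ∃ h ∈ H, ∃ k ∈ K, h * x * k = y

/-- The orbit equivalence relation of a group of homeomorphisms of the Cantor space. -/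
def SameHomeoOrbit (Δ : Subgroup (Cantor ≃ₜ Cantor)) (x y : Cantor) : Prop := ∃ h ∈ Δ, h x = y

/-- The usual topology of the homeomorphism group of the Cantor space: uniform convergence of `h`
and `h⁻¹`. -/
def homeoTopology : TopologicalSpace (Cantor ≃ₜ Cantor) :=
  TopologicalSpace.induced (fun h : Cantor ≃ₜ Cantor =>
    ((⟨h, h.continuous⟩ : C(Cantor, Cantor)), (⟨h.symm, h.symm.continuous⟩ : C(Cantor, Cantor))))
    inferInstance

/-- The usual topology of `S_∞ = Sym(ℕ)`: pointwise convergence of `g` and `g⁻¹`. -/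
def permTopology : TopologicalSpace (Equiv.Perm ℕ) :=
  TopologicalSpace.induced
    (fun g : Equiv.Perm ℕ => ((g : ℕ → ℕ), (g.symm : ℕ → ℕ))) inferInstance

/-- The open subgroups form a base of neighbourhoods of `1`. (For Polish groups: `G` is isomorphic
to a closed subgroup of `S_∞`.) -/
def NonArchimedean (G : Type) [Group G] [TopologicalSpace G] : Prop :=
  ∀ U ∈ 𝓝 (1 : G), ∃ V : Subgroup G, IsOpen (V : Set G) ∧ (V : Set G) ⊆ U

/-- All topological groups. -/
def Every (G : Type) [Group G] [TopologicalSpace G] : Prop := True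

/-- Q1 for the Polish groups in the class `P`. -/
def Conjecture (P : ∀ (G : Type) [Group G] [TopologicalSpace G], Prop) : Prop :=
  ∀ (G : Type) [TopologicalSpace G] [Group G] [IsTopologicalGroup G] [PolishSpace G]
    [MeasurableSpace G] [BorelSpace G] (X : Type) [MeasurableSpace X] [StandardBorelSpace X]
    [MulAction G X] [MeasurableSMul₂ G X], P G →
    CountablyMany (SameOrbit G X) ∨ PerfectlyMany (SameOrbit G X)

/-- The case of continuous actions on the Cantor space. -/
def CantorCase (P : ∀ (G : Type) [Group G] [TopologicalSpace G], Prop) : Prop :=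
  ∀ (G : Type) [TopologicalSpace G] [Group G] [IsTopologicalGroup G] [PolishSpace G]
    [MulAction G Cantor], P G → Continuous (fun p : G × Cantor => p.1 • p.2) →
    CountablyMany (SameOrbit G Cantor) ∨ PerfectlyMany (SameOrbit G Cantor)

/-- The case of double cosets of closed subgroups. -/
def DoubleCosetCase (P : ∀ (G : Type) [Group G] [TopologicalSpace G], Prop) : Prop :=
  ∀ (L : Type) [TopologicalSpace L] [Group L] [IsTopologicalGroup L] [PolishSpace L]
    [MeasurableSpace L] [BorelSpace L] (H K : Subgroup L), P L →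
    IsClosed (H : Set L) → IsClosed (K : Set L) →
    CountablyMany (SameDoubleCoset H K) ∨ PerfectlyMany (SameDoubleCoset H K)

/-- The case of closed groups of homeomorphisms of the Cantor space. -/
def HomeoCase : Prop :=
  ∀ Δ : Subgroup (Cantor ≃ₜ Cantor), IsClosed[homeoTopology] (Δ : Set (Cantor ≃ₜ Cantor)) →
    CountablyMany (SameHomeoOrbit Δ) ∨ PerfectlyMany (SameHomeoOrbit Δ)

theorem cmo_iff (G X : Type) [Group G] [MulAction G X] :
    CountablyMany (SameOrbit G X) ↔ Pool.Agent.H93.CP.CMO G X := by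
  constructor
  · rintro ⟨A, hA, h⟩
    refine ⟨A, hA, fun x => ?_⟩
    obtain ⟨a, ha, g, rfl⟩ := h x
    exact ⟨g, ha⟩
  · rintro ⟨A, hA, h⟩
    refine ⟨A, hA, fun x => ?_⟩
    obtain ⟨g, hg⟩ := h x
    exact ⟨g • x, hg, g, rfl⟩

theorem pmo_iff (G X : Type) [Group G] [MulAction G X] [MeasurableSpace X] :
    PerfectlyMany (SameOrbit G X) ↔ Pool.Agent.H93.CP.PMO G X := by
  constructor
  · rintro ⟨f, hf, h⟩
    exact ⟨f, hf, fun u v huv g hg => h u v huv ⟨g, hg⟩⟩
  · rintro ⟨f, hf, h⟩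
    exact ⟨f, hf, fun u v huv ⟨g, hg⟩ => h u v huv g hg⟩

theorem cmd_iff {L : Type} [Group L] (H K : Subgroup L) :
    CountablyMany (SameDoubleCoset H K) ↔ Pool.Agent.H93.CP.CMD H K := by
  constructor
  · rintro ⟨A, hA, h⟩
    refine ⟨A, hA, fun x => ?_⟩
    obtain ⟨a, ha, h1, hh1, k1, hk1, rfl⟩ := h x
    exact ⟨h1, hh1, k1, hk1, ha⟩
  · rintro ⟨A, hA, h⟩
    refine ⟨A, hA, fun x => ?_⟩
    obtain ⟨h1, hh1, k1, hk1, ha⟩ := h x
    exact ⟨_, ha, h1, hh1, k1, hk1, rfl⟩

theorem pmd_iff {L : Type} [Group L] [MeasurableSpace L] (H K : Subgroup L) :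
    PerfectlyMany (SameDoubleCoset H K) ↔ Pool.Agent.H93.CP.PMD H K := by
  constructor
  · rintro ⟨f, hf, h⟩
    exact ⟨f, hf, fun u v huv h1 hh1 k1 hk1 hg => h u v huv ⟨h1, hh1, k1, hk1, hg⟩⟩
  · rintro ⟨f, hf, h⟩
    exact ⟨f, hf, fun u v huv ⟨h1, hh1, k1, hk1, hg⟩ => h u v huv h1 hh1 k1 hk1 hg⟩

/-- the homeomorphism group of the Cantor space as a group of the proof -/
def toHC : (Cantor ≃ₜ Cantor) ≃* Pool.Agent.H93.CP.HC Cantor Unit where
  toFun h := ⟨h, 1⟩
  invFun a := a.h
  left_inv _ := rfl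
  right_inv a := by
    ext y
    · rfl
  map_mul' a b := by
    ext y
    · rfl

theorem continuous_toHC : @Continuous _ _ homeoTopology _ toHC := by
  let _ := homeoTopology
  refine continuous_induced_rng.2 ?_
  have h1 : Continuous (fun h : Cantor ≃ₜ Cantor =>
      ((⟨h, h.continuous⟩ : C(Cantor, Cantor)),
        (⟨h.symm, h.symm.continuous⟩ : C(Cantor, Cantor)))) := continuous_induced_dom
  exact (continuous_fst.comp h1).prodMk ((continuous_snd.comp h1).prodMk continuous_const)

theorem continuous_toHC_symm : @Continuous _ _ _ homeoTopology toHC.symm := by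
  let _ := homeoTopology
  refine continuous_induced_rng.2 ?_
  have h1 : Continuous (fun a : Pool.Agent.H93.CP.HC Cantor Unit =>
      ((⟨a.h, a.h.continuous⟩ : C(Cantor, Cantor)),
        (⟨a.h.symm, a.h.symm.continuous⟩ : C(Cantor, Cantor)), a.c)) := continuous_induced_dom
  exact (continuous_fst.comp h1).prodMk (continuous_fst.comp (continuous_snd.comp h1))

theorem cmh_iff (Δ : Subgroup (Pool.Agent.H93.CP.HC Cantor Unit)) :
    CountablyMany (SameHomeoOrbit (Δ.comap toHC.toMonoidHom)) ↔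
      Pool.Agent.H93.CP.CMO Δ Cantor := by
  constructor
  · rintro ⟨A, hA, h⟩
    refine ⟨A, hA, fun x => ?_⟩
    obtain ⟨a, ha, g, hg, rfl⟩ := h x
    exact ⟨⟨_, hg⟩, ha⟩
  · rintro ⟨A, hA, h⟩
    refine ⟨A, hA, fun x => ?_⟩
    obtain ⟨⟨g, hg⟩, hga⟩ := h x
    refine ⟨_, hga, g.h, ?_, rfl⟩
    change toHC (toHC.symm g) ∈ Δ
    rw [MulEquiv.apply_symm_apply]
    exact hg

theorem pmh_iff (Δ : Subgroup (Pool.Agent.H93.CP.HC Cantor Unit)) :
    PerfectlyMany (SameHomeoOrbit (Δ.comap toHC.toMonoidHom)) ↔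
      Pool.Agent.H93.CP.PMO Δ Cantor := by
  constructor
  · rintro ⟨f, hf, h⟩
    refine ⟨f, hf, fun u v huv ⟨g, hg⟩ hgu => h u v huv ⟨g.h, ?_, hgu⟩⟩
    change toHC (toHC.symm g) ∈ Δ
    rw [MulEquiv.apply_symm_apply]
    exact hg
  · rintro ⟨f, hf, h⟩
    exact ⟨f, hf, fun u v huv ⟨g, hg, hgu⟩ => h u v huv ⟨_, hg⟩ hgu⟩

theorem closed_comap (Δ : Subgroup (Pool.Agent.H93.CP.HC Cantor Unit))
    (hΔ : IsClosed (Δ : Set (Pool.Agent.H93.CP.HC Cantor Unit))) :
    IsClosed[homeoTopology] ((Δ.comap toHC.toMonoidHom : Subgroup (Cantor ≃ₜ Cantor)) :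
      Set (Cantor ≃ₜ Cantor)) := by
  let _ := homeoTopology
  exact hΔ.preimage continuous_toHC

/-- the reductions -/
theorem reduction_one (G X : Type) [TopologicalSpace G] [Group G] [IsTopologicalGroup G]
    [PolishSpace G] [MeasurableSpace G] [BorelSpace G] [MeasurableSpace X] [StandardBorelSpace X]
    [MulAction G X] [MeasurableSMul₂ G X] :
    ∃ (Γ : Type) (_ : TopologicalSpace Γ) (_ : Group Γ) (_ : IsTopologicalGroup Γ)
        (_ : PolishSpace Γ) (_ : MulAction Γ Cantor),
        Continuous (fun p : Γ × Cantor => p.1 • p.2) ∧ (NonArchimedean G → NonArchimedean Γ) ∧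
        (CountablyMany (SameOrbit Γ Cantor) ↔ CountablyMany (SameOrbit G X)) ∧
        (PerfectlyMany (SameOrbit Γ Cantor) ↔ PerfectlyMany (SameOrbit G X)) := by
  obtain ⟨Δ, h1, h2, h3, h4, h5, h6, h7, h8, h9⟩ := Pool.Agent.H93.CP.r_ONE G X
  refine ⟨Δ, h1, h2, h3, h4, h5, h6, h7, ?_, ?_⟩
  · rw [cmo_iff, cmo_iff, h8]
  · rw [pmo_iff, pmo_iff, h9]

theorem reduction_two (Γ : Type) [TopologicalSpace Γ] [Group Γ] [IsTopologicalGroup Γ]
    [PolishSpace Γ] [MulAction Γ Cantor] (hc : Continuous (fun p : Γ × Cantor => p.1 • p.2)) :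
    ∃ (L : Type) (_ : TopologicalSpace L) (_ : Group L) (_ : IsTopologicalGroup L)
        (_ : PolishSpace L) (_ : MeasurableSpace L) (_ : BorelSpace L) (H K : Subgroup L),
        IsClosed (H : Set L) ∧ IsClosed (K : Set L) ∧ (NonArchimedean Γ → NonArchimedean L) ∧
        (CountablyMany (SameDoubleCoset H K) ↔ CountablyMany (SameOrbit Γ Cantor)) ∧
        (PerfectlyMany (SameDoubleCoset H K) ↔ PerfectlyMany (SameOrbit Γ Cantor)) := by
  obtain ⟨L, h1, h2, h3, h4, h5, h6, H, K, hH, hK, h7, h8, h9⟩ := Pool.Agent.H93.CP.r_DCO Γ hc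
  refine ⟨L, h1, h2, h3, h4, h5, h6, H, K, hH, hK, h7, ?_, ?_⟩
  · rw [cmo_iff, cmd_iff, h8]
  · rw [pmo_iff, pmd_iff, h9]

theorem nonArch_subgroup {L : Type} [TopologicalSpace L] [Group L] (H : Subgroup L)
    (h : NonArchimedean L) : NonArchimedean H := by
  intro U hU
  rw [nhds_subtype] at hU
  obtain ⟨W, hW, hWU⟩ := hU
  obtain ⟨V, hV, hVW⟩ := h W hW
  exact ⟨V.comap H.subtype, hV.preimage continuous_subtype_val, fun x hx => hWU (hVW hx)⟩

theorem nonArch_prod (A B : Type) [TopologicalSpace A] [Group A] [TopologicalSpace B] [Group B]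
    (hA : NonArchimedean A) (hB : NonArchimedean B) : NonArchimedean (A × B) := by
  intro U hU
  change U ∈ 𝓝 ((1 : A), (1 : B)) at hU
  rw [mem_nhds_prod_iff] at hU
  obtain ⟨U1, hU1, U2, hU2, hU12⟩ := hU
  obtain ⟨V1, hV1, h1⟩ := hA U1 hU1
  obtain ⟨V2, hV2, h2⟩ := hB U2 hU2
  refine ⟨V1.prod V2, ?_, ?_⟩
  · rw [Subgroup.coe_prod]
    exact hV1.prod hV2
  · rw [Subgroup.coe_prod]
    exact (Set.prod_mono h1 h2).trans hU12

theorem cantor_of (P : ∀ (G : Type) [Group G] [TopologicalSpace G], Prop) (hb : Conjecture P) :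
    CantorCase P := by
  intro G _ _ _ _ _ hG hc
  let _ : MeasurableSpace G := borel G
  have : BorelSpace G := ⟨rfl⟩
  have : MeasurableSMul₂ G Cantor := ⟨hc.measurable⟩
  exact hb G Cantor hG

/-- two-sided action -/
@[reducible] def act {L : Type} [Group L] (H K : Subgroup L) : MulAction (H × K) L where
  smul p x := p.1 * x * (p.2 : L)⁻¹
  one_smul x := by
    change ((1 : H) : L) * x * ((1 : K) : L)⁻¹ = x
    simp
  mul_smul p q x := by
    change ((p.1 * q.1 : H) : L) * x * ((p.2 * q.2 : K) : L)⁻¹ =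
      p.1 * (q.1 * x * (q.2 : L)⁻¹) * (p.2 : L)⁻¹
    simp [mul_assoc]

theorem doubleCoset_of (P : ∀ (G : Type) [Group G] [TopologicalSpace G], Prop)
    (hb : Conjecture P)
    (hP : ∀ (L : Type) [Group L] [TopologicalSpace L] [IsTopologicalGroup L]
      (H K : Subgroup L), P L → P (H × K)) : DoubleCosetCase P := by
  intro L _ _ _ _ _ _ H K hL hH hK
  have : PolishSpace H := hH.polishSpace
  have : PolishSpace K := hK.polishSpace
  let _ := act H K
  let _ : MeasurableSpace (H × K) := borel _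
  have : BorelSpace (H × K) := ⟨rfl⟩
  have hcont : Continuous (fun p : (H × K) × L => p.1 • p.2) := by
    change Continuous (fun p : (H × K) × L => (p.1.1 : L) * p.2 * (p.1.2 : L)⁻¹)
    fun_prop
  have : MeasurableSMul₂ (H × K) L := ⟨hcont.measurable⟩
  have key : ∀ x y : L, SameOrbit (H × K) L x y ↔ SameDoubleCoset H K x y := by
    intro x y
    constructor
    · rintro ⟨p, hp⟩
      exact ⟨p.1, p.1.2, (p.2 : L)⁻¹, K.inv_mem p.2.2, hp⟩
    · rintro ⟨h, hh, k, hk, hx⟩
      refine ⟨(⟨h, hh⟩, ⟨k⁻¹, K.inv_mem hk⟩), ?_⟩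
      change h * x * (k⁻¹)⁻¹ = y
      rw [inv_inv]
      exact hx
  have hst : StandardBorelSpace L := inferInstance
  rcases hb (H × K) L (hP L H K hL) with ⟨A, hA, h⟩ | ⟨f, hf, h⟩
  · left
    refine ⟨A, hA, fun x => ?_⟩
    obtain ⟨a, ha, hx⟩ := h x
    exact ⟨a, ha, (key _ _).1 hx⟩
  · right
    exact ⟨f, hf, fun u v huv hx => h u v huv ((key _ _).2 hx)⟩

theorem homeo_of (hb : Conjecture NonArchimedean) : HomeoCase := by
  intro Δ hΔ
  let _ : TopologicalSpace (Cantor ≃ₜ Cantor) := homeoTopology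
  set Δ' : Subgroup (Pool.Agent.H93.CP.HC Cantor Unit) := Δ.comap toHC.symm.toMonoidHom with hΔ'
  have hcl : IsClosed (Δ' : Set (Pool.Agent.H93.CP.HC Cantor Unit)) :=
    hΔ.preimage continuous_toHC_symm
  have h1 : IsTopologicalGroup (Pool.Agent.H93.CP.HC Cantor Unit) :=
    (Pool.Agent.H93.CP.r_HTG Cantor Unit).1
  have h2 : PolishSpace (Pool.Agent.H93.CP.HC Cantor Unit) := Pool.Agent.H93.CP.r_HPO Cantor Unit
  have h3 : PolishSpace Δ' := hcl.polishSpace
  have h4 : NonArchimedean (Pool.Agent.H93.CP.HC Cantor Unit) :=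
    Pool.Agent.H93.CP.r_HNA Cantor Unit fun U hU => ⟨⊤, isOpen_univ, fun x _ => by
      rw [Subsingleton.elim x 1]
      exact mem_of_mem_nhds hU⟩
  have h5 : Continuous (fun p : Δ' × Cantor => p.1 • p.2) := by
    have h6 := (Pool.Agent.H93.CP.r_HTG Cantor Unit).2.1
    exact h6.comp ((continuous_subtype_val.comp continuous_fst).prodMk continuous_snd)
  have h7 := cantor_of NonArchimedean hb Δ' (nonArch_subgroup Δ' h4) h5
  have h8 : Δ = Δ'.comap toHC.toMonoidHom := by
    ext h
    rfl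
  rw [h8, cmh_iff, pmh_iff, ← cmo_iff, ← pmo_iff]
  exact h7

theorem infinite_symmetric [MulAction (Equiv.Perm ℕ) Cantor]
    (hc : @Continuous (Equiv.Perm ℕ × Cantor) Cantor
      (@instTopologicalSpaceProd _ _ permTopology _) _ (fun p => p.1 • p.2)) :
    CountablyMany (SameOrbit (Equiv.Perm ℕ) Cantor) ∨
      PerfectlyMany (SameOrbit (Equiv.Perm ℕ) Cantor) := by
  rcases Pool.Agent.H16.CX.final Pool.Agent.H16.CX.loc Pool.Agent.H16.CX.bai Cantor hc
      (Or.inl inferInstance) with ⟨D, hD, h⟩ | ⟨f, hf, h⟩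
  · left
    refine ⟨D, hD, fun x => ?_⟩
    obtain ⟨g, hg⟩ := h x
    exact ⟨g • x, hg, g, rfl⟩
  · right
    exact ⟨f, hf, fun u v huv ⟨g, hg⟩ => h u v huv g hg⟩

/-- **Theorem.** Continuous actions on the Cantor space, and double cosets, are the whole
topological Vaught conjecture; closed subgroups of the homeomorphism group of the Cantor space are
the whole conjecture for non-archimedean groups; for `S_∞` itself, continuous actions on the Cantor
space satisfy it. -/
theorem result :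
    (∀ (G X : Type) [TopologicalSpace G] [Group G] [IsTopologicalGroup G] [PolishSpace G]
      [MeasurableSpace G] [BorelSpace G] [MeasurableSpace X] [StandardBorelSpace X]
      [MulAction G X] [MeasurableSMul₂ G X],
      (∃ (Γ : Type) (_ : TopologicalSpace Γ) (_ : Group Γ) (_ : IsTopologicalGroup Γ)
        (_ : PolishSpace Γ) (_ : MulAction Γ Cantor),
        Continuous (fun p : Γ × Cantor => p.1 • p.2) ∧ (NonArchimedean G → NonArchimedean Γ) ∧
        (CountablyMany (SameOrbit Γ Cantor) ↔ CountablyMany (SameOrbit G X)) ∧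
        (PerfectlyMany (SameOrbit Γ Cantor) ↔ PerfectlyMany (SameOrbit G X))) ∧
      (∃ (L : Type) (_ : TopologicalSpace L) (_ : Group L) (_ : IsTopologicalGroup L)
        (_ : PolishSpace L) (_ : MeasurableSpace L) (_ : BorelSpace L) (H K : Subgroup L),
        IsClosed (H : Set L) ∧ IsClosed (K : Set L) ∧ (NonArchimedean G → NonArchimedean L) ∧
        (CountablyMany (SameDoubleCoset H K) ↔ CountablyMany (SameOrbit G X)) ∧
        (PerfectlyMany (SameDoubleCoset H K) ↔ PerfectlyMany (SameOrbit G X))) ∧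
      (NonArchimedean G → ∃ Δ : Subgroup (Cantor ≃ₜ Cantor),
        IsClosed[homeoTopology] (Δ : Set (Cantor ≃ₜ Cantor)) ∧
        (CountablyMany (SameHomeoOrbit Δ) ↔ CountablyMany (SameOrbit G X)) ∧
        (PerfectlyMany (SameHomeoOrbit Δ) ↔ PerfectlyMany (SameOrbit G X)))) ∧
    (Conjecture Every ↔ CantorCase Every) ∧ (Conjecture Every ↔ DoubleCosetCase Every) ∧
    (Conjecture NonArchimedean ↔ CantorCase NonArchimedean) ∧
    (Conjecture NonArchimedean ↔ DoubleCosetCase NonArchimedean) ∧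
    (Conjecture NonArchimedean ↔ HomeoCase) ∧
    ∀ [MulAction (Equiv.Perm ℕ) Cantor],
      @Continuous (Equiv.Perm ℕ × Cantor) Cantor (@instTopologicalSpaceProd _ _ permTopology _) _
        (fun p => p.1 • p.2) →
      CountablyMany (SameOrbit (Equiv.Perm ℕ) Cantor) ∨
        PerfectlyMany (SameOrbit (Equiv.Perm ℕ) Cantor) := by
  have H1 : ∀ (G X : Type) [TopologicalSpace G] [Group G] [IsTopologicalGroup G] [PolishSpace G]
      [MeasurableSpace G] [BorelSpace G] [MeasurableSpace X] [StandardBorelSpace X]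
      [MulAction G X] [MeasurableSMul₂ G X],
      ∃ (L : Type) (_ : TopologicalSpace L) (_ : Group L) (_ : IsTopologicalGroup L)
        (_ : PolishSpace L) (_ : MeasurableSpace L) (_ : BorelSpace L) (H K : Subgroup L),
        IsClosed (H : Set L) ∧ IsClosed (K : Set L) ∧ (NonArchimedean G → NonArchimedean L) ∧
        (CountablyMany (SameDoubleCoset H K) ↔ CountablyMany (SameOrbit G X)) ∧
        (PerfectlyMany (SameDoubleCoset H K) ↔ PerfectlyMany (SameOrbit G X)) := by
    intro G X _ _ _ _ _ _ _ _ _ _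
    obtain ⟨Γ, h1, h2, h3, h4, h5, h6, h7, h8, h9⟩ := reduction_one G X
    obtain ⟨L, i1, i2, i3, i4, i5, i6, H, K, hH, hK, i7, i8, i9⟩ := reduction_two Γ h6
    exact ⟨L, i1, i2, i3, i4, i5, i6, H, K, hH, hK, fun h => i7 (h7 h), i8.trans h8,
      i9.trans h9⟩
  have H2 : ∀ (G X : Type) [TopologicalSpace G] [Group G] [IsTopologicalGroup G] [PolishSpace G]
      [MeasurableSpace G] [BorelSpace G] [MeasurableSpace X] [StandardBorelSpace X]
      [MulAction G X] [MeasurableSMul₂ G X],
      NonArchimedean G → ∃ Δ : Subgroup (Cantor ≃ₜ Cantor),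
        IsClosed[homeoTopology] (Δ : Set (Cantor ≃ₜ Cantor)) ∧
        (CountablyMany (SameHomeoOrbit Δ) ↔ CountablyMany (SameOrbit G X)) ∧
        (PerfectlyMany (SameHomeoOrbit Δ) ↔ PerfectlyMany (SameOrbit G X)) := by
    intro G X _ _ _ _ _ _ _ _ _ _ hna
    obtain ⟨Δ, hΔ, h8, h9⟩ := Pool.Agent.H93.CP.r_NAR G X hna
    refine ⟨Δ.comap toHC.toMonoidHom, closed_comap Δ hΔ, ?_, ?_⟩
    · rw [cmh_iff, cmo_iff, h8]
    · rw [pmh_iff, pmo_iff, h9]
  refine ⟨fun G X _ _ _ _ _ _ _ _ _ _ => ⟨reduction_one G X, H1 G X, H2 G X⟩,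
    ⟨fun hb => cantor_of Every hb, fun hb => ?_⟩, ⟨fun hb => ?_, fun hb => ?_⟩,
    ⟨fun hb => cantor_of NonArchimedean hb, fun hb => ?_⟩, ⟨fun hb => ?_, fun hb => ?_⟩,
    ⟨homeo_of, fun hb => ?_⟩, ?_⟩
  · intro G _ _ _ _ _ _ X _ _ _ _ hG
    obtain ⟨Γ, h1, h2, h3, h4, h5, h6, h7, h8, h9⟩ := reduction_one G X
    rw [← h8, ← h9]
    exact hb Γ trivial h6
  · exact doubleCoset_of Every hb fun _ _ _ _ _ _ _ => trivial
  · intro G _ _ _ _ _ _ X _ _ _ _ hG
    obtain ⟨L, i1, i2, i3, i4, i5, i6, H, K, hH, hK, i7, i8, i9⟩ := H1 G X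
    rw [← i8, ← i9]
    exact hb L H K trivial hH hK
  · intro G _ _ _ _ _ _ X _ _ _ _ hG
    obtain ⟨Γ, h1, h2, h3, h4, h5, h6, h7, h8, h9⟩ := reduction_one G X
    rw [← h8, ← h9]
    exact hb Γ (h7 hG) h6
  · exact doubleCoset_of NonArchimedean hb fun L _ _ _ H K hL => nonArch_prod _ _
      (nonArch_subgroup H hL) (nonArch_subgroup K hL)
  · intro G _ _ _ _ _ _ X _ _ _ _ hG
    obtain ⟨L, i1, i2, i3, i4, i5, i6, H, K, hH, hK, i7, i8, i9⟩ := H1 G X
    rw [← i8, ← i9]
    exact hb L H K (i7 hG) hH hK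
  · intro G _ _ _ _ _ _ X _ _ _ _ hG
    obtain ⟨Δ, hΔ, h8, h9⟩ := H2 G X hG
    rw [← h8, ← h9]
    exact hb Δ hΔ
  · intro _ hc
    exact infinite_symmetric hc

end Pool.Agent.Results.MP_5607ba_lc.CompactSpaces
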