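import Pool.Agent.H7.LP.All3
import Pool.Agent.H93.CP.All
import Pool.Agent.H16.CX.Local

/-!
# Vaught's conjecture and isometry groups of locally compact spaces

Q1 (the topological Vaught conjecture): every Polish group `G` has countably or perfectly many
orbits on every Borel `G`-space `X`.

* Let `G` be the isometry group of a locally compact Polish metric space or, more generally, a
  continuous homomorphic image of a closed subgroup of a Polish group `L` with small pieces (every
  neighbourhood of `1` contains a closed subgroup, normal in an open subgroup with locally compact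
  quotient); these include all locally compact and all non-archimedean Polish groups, and countable
  products.
  Then the orbits of `G` on every Borel `G`-space `X` are classified by the isomorphism types of a
  Borel class of countable structures: there are Borel maps from `X` to the class and back which
  induce inverse bijections of the set of orbits and the set of isomorphism types.
* So Q1 for the isometry groups of all locally compact Polish metric spaces, and Q1 for all these
  groups `G`, are equivalent to Vaught's conjecture (for sentences of `L_{ω₁ω}`: every Borel class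
  of countable structures has countably or perfectly many isomorphism types). They are also
  equivalent to: every closed subgroup of `Homeo(2^ℕ)` has countably or perfectly many orbits on
  `2^ℕ`; and to the dichotomy for double cosets of closed subgroups of non-archimedean groups.
* For all Polish groups: Q1 is equivalent to its case of continuous actions on the Cantor space,
  and to its case of double cosets of closed subgroups.
* For the group `S_∞` itself the dichotomy is true for all continuous actions on the Cantor space,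
  and on all `σ`-compact metrizable spaces.
-/

set_option autoImplicit false

open Set Filter Topology

namespace Pool.Agent.H7.Keep.IsometryGroups3

/-- The Cantor space. -/
abbrev Cantor : Type := ℕ → Bool

/-- A countable set meets all classes of `R`. -/
def CountablyMany {X : Type} (R : X → X → Prop) : Prop :=
  ∃ A : Set X, A.Countable ∧ ∀ x : X, ∃ a ∈ A, R x a

/-- A Borel map from the Cantor space takes distinct points to points of distinct classes. -/
def PerfectlyMany {X : Type} [MeasurableSpace X] (R : X → X → Prop) : Prop :=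
  ∃ f : Cantor → X, Measurable f ∧ ∀ u v, u ≠ v → ¬ R (f u) (f v)

/-- The orbit equivalence relation of an action of `G` on `X`. -/
def SameOrbit (G X : Type) [Group G] [MulAction G X] (x y : X) : Prop := ∃ g : G, g • x = y

/-- `x` and `y` are in the same double coset of `H` and `K`. -/
def SameDoubleCoset {L : Type} [Group L] (H K : Subgroup L) (x y : L) : Prop :=
  ∃ h ∈ H, ∃ k ∈ K, h * x * k = y

/-- The orbit equivalence relation of a group of homeomorphisms of the Cantor space. -/
def SameHomeoOrbit (Δ : Subgroup (Cantor ≃ₜ Cantor)) (x y : Cantor) : Prop := ∃ h ∈ Δ, h x = y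

/-- The usual topology of the homeomorphism group of the Cantor space: uniform convergence of `h`
and `h⁻¹`. -/
def homeoTopology : TopologicalSpace (Cantor ≃ₜ Cantor) :=
  TopologicalSpace.induced (fun h : Cantor ≃ₜ Cantor =>
    ((⟨h, h.continuous⟩ : C(Cantor, Cantor)), (⟨h.symm, h.symm.continuous⟩ : C(Cantor, Cantor))))
    inferInstance

/-- The usual topology of `S_∞ = Sym(ℕ)`: pointwise convergence of `g` and `g⁻¹`. -/
def permTopology : TopologicalSpace (Equiv.Perm ℕ) :=
  TopologicalSpace.induced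
    (fun g : Equiv.Perm ℕ => ((g : ℕ → ℕ), (g.symm : ℕ → ℕ))) inferInstance

/-- The open subgroups form a base of neighbourhoods of `1`. (For Polish groups: `G` is isomorphic
to a closed subgroup of `S_∞`.) -/
def NonArchimedean (G : Type) [Group G] [TopologicalSpace G] : Prop :=
  ∀ U ∈ 𝓝 (1 : G), ∃ V : Subgroup G, IsOpen (V : Set G) ∧ (V : Set G) ⊆ U

/-- Q1 for the Polish groups in the class `P`. -/
def Conjecture (P : ∀ (G : Type) [Group G] [TopologicalSpace G], Prop) : Prop :=
  ∀ (G : Type) [TopologicalSpace G] [Group G] [IsTopologicalGroup G] [PolishSpace G]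
    [MeasurableSpace G] [BorelSpace G] (X : Type) [MeasurableSpace X] [StandardBorelSpace X]
    [MulAction G X] [MeasurableSMul₂ G X], P G →
    CountablyMany (SameOrbit G X) ∨ PerfectlyMany (SameOrbit G X)

/-- The case of continuous actions on the Cantor space. -/
def CantorCase : Prop :=
  ∀ (G : Type) [TopologicalSpace G] [Group G] [IsTopologicalGroup G] [PolishSpace G]
    [MulAction G Cantor], Continuous (fun p : G × Cantor => p.1 • p.2) →
    CountablyMany (SameOrbit G Cantor) ∨ PerfectlyMany (SameOrbit G Cantor)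

/-- The case of double cosets of closed subgroups. -/
def DoubleCosetCase (P : ∀ (G : Type) [Group G] [TopologicalSpace G], Prop) : Prop :=
  ∀ (L : Type) [TopologicalSpace L] [Group L] [IsTopologicalGroup L] [PolishSpace L]
    [MeasurableSpace L] [BorelSpace L] (H K : Subgroup L), P L →
    IsClosed (H : Set L) → IsClosed (K : Set L) →
    CountablyMany (SameDoubleCoset H K) ∨ PerfectlyMany (SameDoubleCoset H K)

/-- The case of closed groups of homeomorphisms of the Cantor space. -/
def HomeoCase : Prop :=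
  ∀ Δ : Subgroup (Cantor ≃ₜ Cantor), IsClosed[homeoTopology] (Δ : Set (Cantor ≃ₜ Cantor)) →
    CountablyMany (SameHomeoOrbit Δ) ∨ PerfectlyMany (SameHomeoOrbit Δ)

theorem cmo_iff (G X : Type) [Group G] [MulAction G X] :
    CountablyMany (SameOrbit G X) ↔ Pool.Agent.H93.CP.CMO G X := by
  constructor
  · rintro ⟨A, hA, h⟩
    refine ⟨A, hA, fun x => ?_⟩
    obtain ⟨a, ha, g, rfl⟩ := h x
    exact ⟨g, ha⟩
  · rintro ⟨A, hA, h⟩
    refine ⟨A, hA, fun x => ?_⟩
    obtain ⟨g, hg⟩ := h x
    exact ⟨g • x, hg, g, rfl⟩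

theorem pmo_iff (G X : Type) [Group G] [MulAction G X] [MeasurableSpace X] :
    PerfectlyMany (SameOrbit G X) ↔ Pool.Agent.H93.CP.PMO G X := by
  constructor
  · rintro ⟨f, hf, h⟩
    exact ⟨f, hf, fun u v huv g hg => h u v huv ⟨g, hg⟩⟩
  · rintro ⟨f, hf, h⟩
    exact ⟨f, hf, fun u v huv ⟨g, hg⟩ => h u v huv g hg⟩

theorem cmd_iff {L : Type} [Group L] (H K : Subgroup L) :
    CountablyMany (SameDoubleCoset H K) ↔ Pool.Agent.H93.CP.CMD H K := by
  constructor
  · rintro ⟨A, hA, h⟩
    refine ⟨A, hA, fun x => ?_⟩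
    obtain ⟨a, ha, h1, hh1, k1, hk1, rfl⟩ := h x
    exact ⟨h1, hh1, k1, hk1, ha⟩
  · rintro ⟨A, hA, h⟩
    refine ⟨A, hA, fun x => ?_⟩
    obtain ⟨h1, hh1, k1, hk1, ha⟩ := h x
    exact ⟨_, ha, h1, hh1, k1, hk1, rfl⟩

theorem pmd_iff {L : Type} [Group L] [MeasurableSpace L] (H K : Subgroup L) :
    PerfectlyMany (SameDoubleCoset H K) ↔ Pool.Agent.H93.CP.PMD H K := by
  constructor
  · rintro ⟨f, hf, h⟩
    exact ⟨f, hf, fun u v huv h1 hh1 k1 hk1 hg => h u v huv ⟨h1, hh1, k1, hk1, hg⟩⟩
  · rintro ⟨f, hf, h⟩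
    exact ⟨f, hf, fun u v huv ⟨h1, hh1, k1, hk1, hg⟩ => h u v huv h1 hh1 k1 hk1 hg⟩

/-- the homeomorphism group of the Cantor space as a group of the proof -/
def toHC : (Cantor ≃ₜ Cantor) ≃* Pool.Agent.H93.CP.HC Cantor Unit where
  toFun h := ⟨h, 1⟩
  invFun a := a.h
  left_inv _ := rfl
  right_inv a := by
    ext y
    · rfl
  map_mul' a b := by
    ext y
    · rfl

theorem continuous_toHC : @Continuous _ _ homeoTopology _ toHC := by
  let _ := homeoTopology
  refine continuous_induced_rng.2 ?_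
  have h1 : Continuous (fun h : Cantor ≃ₜ Cantor =>
      ((⟨h, h.continuous⟩ : C(Cantor, Cantor)),
        (⟨h.symm, h.symm.continuous⟩ : C(Cantor, Cantor)))) := continuous_induced_dom
  exact (continuous_fst.comp h1).prodMk ((continuous_snd.comp h1).prodMk continuous_const)

theorem continuous_toHC_symm : @Continuous _ _ _ homeoTopology toHC.symm := by
  let _ := homeoTopology
  refine continuous_induced_rng.2 ?_
  have h1 : Continuous (fun a : Pool.Agent.H93.CP.HC Cantor Unit =>
      ((⟨a.h, a.h.continuous⟩ : C(Cantor, Cantor)),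
        (⟨a.h.symm, a.h.symm.continuous⟩ : C(Cantor, Cantor)), a.c)) := continuous_induced_dom
  exact (continuous_fst.comp h1).prodMk (continuous_fst.comp (continuous_snd.comp h1))

theorem cmh_iff (Δ : Subgroup (Pool.Agent.H93.CP.HC Cantor Unit)) :
    CountablyMany (SameHomeoOrbit (Δ.comap toHC.toMonoidHom)) ↔
      Pool.Agent.H93.CP.CMO Δ Cantor := by
  constructor
  · rintro ⟨A, hA, h⟩
    refine ⟨A, hA, fun x => ?_⟩
    obtain ⟨a, ha, g, hg, rfl⟩ := h x
    exact ⟨⟨_, hg⟩, ha⟩
  · rintro ⟨A, hA, h⟩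
    refine ⟨A, hA, fun x => ?_⟩
    obtain ⟨⟨g, hg⟩, hga⟩ := h x
    refine ⟨_, hga, g.h, ?_, rfl⟩
    change toHC (toHC.symm g) ∈ Δ
    rw [MulEquiv.apply_symm_apply]
    exact hg

theorem pmh_iff (Δ : Subgroup (Pool.Agent.H93.CP.HC Cantor Unit)) :
    PerfectlyMany (SameHomeoOrbit (Δ.comap toHC.toMonoidHom)) ↔
      Pool.Agent.H93.CP.PMO Δ Cantor := by
  constructor
  · rintro ⟨f, hf, h⟩
    refine ⟨f, hf, fun u v huv ⟨g, hg⟩ hgu => h u v huv ⟨g.h, ?_, hgu⟩⟩
    change toHC (toHC.symm g) ∈ Δ
    rw [MulEquiv.apply_symm_apply]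
    exact hg
  · rintro ⟨f, hf, h⟩
    exact ⟨f, hf, fun u v huv ⟨g, hg, hgu⟩ => h u v huv ⟨_, hg⟩ hgu⟩

theorem closed_comap (Δ : Subgroup (Pool.Agent.H93.CP.HC Cantor Unit))
    (hΔ : IsClosed (Δ : Set (Pool.Agent.H93.CP.HC Cantor Unit))) :
    IsClosed[homeoTopology] ((Δ.comap toHC.toMonoidHom : Subgroup (Cantor ≃ₜ Cantor)) :
      Set (Cantor ≃ₜ Cantor)) := by
  let _ := homeoTopology
  exact hΔ.preimage continuous_toHC

/-- the reductions -/
theorem reduction_one (G X : Type) [TopologicalSpace G] [Group G] [IsTopologicalGroup G]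
    [PolishSpace G] [MeasurableSpace G] [BorelSpace G] [MeasurableSpace X] [StandardBorelSpace X]
    [MulAction G X] [MeasurableSMul₂ G X] :
    ∃ (Γ : Type) (_ : TopologicalSpace Γ) (_ : Group Γ) (_ : IsTopologicalGroup Γ)
        (_ : PolishSpace Γ) (_ : MulAction Γ Cantor),
        Continuous (fun p : Γ × Cantor => p.1 • p.2) ∧ (NonArchimedean G → NonArchimedean Γ) ∧
        (CountablyMany (SameOrbit Γ Cantor) ↔ CountablyMany (SameOrbit G X)) ∧
        (PerfectlyMany (SameOrbit Γ Cantor) ↔ PerfectlyMany (SameOrbit G X)) := by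
  obtain ⟨Δ, h1, h2, h3, h4, h5, h6, h7, h8, h9⟩ := Pool.Agent.H93.CP.r_ONE G X
  refine ⟨Δ, h1, h2, h3, h4, h5, h6, h7, ?_, ?_⟩
  · rw [cmo_iff, cmo_iff, h8]
  · rw [pmo_iff, pmo_iff, h9]

theorem reduction_two (Γ : Type) [TopologicalSpace Γ] [Group Γ] [IsTopologicalGroup Γ]
    [PolishSpace Γ] [MulAction Γ Cantor] (hc : Continuous (fun p : Γ × Cantor => p.1 • p.2)) :
    ∃ (L : Type) (_ : TopologicalSpace L) (_ : Group L) (_ : IsTopologicalGroup L)
        (_ : PolishSpace L) (_ : MeasurableSpace L) (_ : BorelSpace L) (H K : Subgroup L),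
        IsClosed (H : Set L) ∧ IsClosed (K : Set L) ∧ (NonArchimedean Γ → NonArchimedean L) ∧
        (CountablyMany (SameDoubleCoset H K) ↔ CountablyMany (SameOrbit Γ Cantor)) ∧
        (PerfectlyMany (SameDoubleCoset H K) ↔ PerfectlyMany (SameOrbit Γ Cantor)) := by
  obtain ⟨L, h1, h2, h3, h4, h5, h6, H, K, hH, hK, h7, h8, h9⟩ := Pool.Agent.H93.CP.r_DCO Γ hc
  refine ⟨L, h1, h2, h3, h4, h5, h6, H, K, hH, hK, h7, ?_, ?_⟩
  · rw [cmo_iff, cmd_iff, h8]
  · rw [pmo_iff, pmd_iff, h9]

theorem nonArch_subgroup {L : Type} [TopologicalSpace L] [Group L] (H : Subgroup L)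
    (h : NonArchimedean L) : NonArchimedean H := by
  intro U hU
  rw [nhds_subtype] at hU
  obtain ⟨W, hW, hWU⟩ := hU
  obtain ⟨V, hV, hVW⟩ := h W hW
  exact ⟨V.comap H.subtype, hV.preimage continuous_subtype_val, fun x hx => hWU (hVW hx)⟩

theorem nonArch_prod (A B : Type) [TopologicalSpace A] [Group A] [TopologicalSpace B] [Group B]
    (hA : NonArchimedean A) (hB : NonArchimedean B) : NonArchimedean (A × B) := by
  intro U hU
  change U ∈ 𝓝 ((1 : A), (1 : B)) at hU
  rw [mem_nhds_prod_iff] at hU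
  obtain ⟨U1, hU1, U2, hU2, hU12⟩ := hU
  obtain ⟨V1, hV1, h1⟩ := hA U1 hU1
  obtain ⟨V2, hV2, h2⟩ := hB U2 hU2
  refine ⟨V1.prod V2, ?_, ?_⟩
  · rw [Subgroup.coe_prod]
    exact hV1.prod hV2
  · rw [Subgroup.coe_prod]
    exact (Set.prod_mono h1 h2).trans hU12

theorem cantor_of (P : ∀ (G : Type) [Group G] [TopologicalSpace G], Prop) (hb : Conjecture P)
    (G : Type) [TopologicalSpace G] [Group G] [IsTopologicalGroup G] [PolishSpace G]
    [MulAction G Cantor] (hG : P G) (hc : Continuous (fun p : G × Cantor => p.1 • p.2)) :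
    CountablyMany (SameOrbit G Cantor) ∨ PerfectlyMany (SameOrbit G Cantor) := by
  let _ : MeasurableSpace G := borel G
  have : BorelSpace G := ⟨rfl⟩
  have : MeasurableSMul₂ G Cantor := ⟨hc.measurable⟩
  exact hb G Cantor hG

/-- two-sided action -/
@[reducible] def act {L : Type} [Group L] (H K : Subgroup L) : MulAction (H × K) L where
  smul p x := p.1 * x * (p.2 : L)⁻¹
  one_smul x := by
    change ((1 : H) : L) * x * ((1 : K) : L)⁻¹ = x
    simp
  mul_smul p q x := by
    change ((p.1 * q.1 : H) : L) * x * ((p.2 * q.2 : K) : L)⁻¹ =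
      p.1 * (q.1 * x * (q.2 : L)⁻¹) * (p.2 : L)⁻¹
    simp [mul_assoc]

theorem doubleCoset_of (P : ∀ (G : Type) [Group G] [TopologicalSpace G], Prop)
    (hb : Conjecture P)
    (hP : ∀ (L : Type) [Group L] [TopologicalSpace L] [IsTopologicalGroup L]
      (H K : Subgroup L), P L → P (H × K)) : DoubleCosetCase P := by
  intro L _ _ _ _ _ _ H K hL hH hK
  have : PolishSpace H := hH.polishSpace
  have : PolishSpace K := hK.polishSpace
  let _ := act H K
  let _ : MeasurableSpace (H × K) := borel _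
  have : BorelSpace (H × K) := ⟨rfl⟩
  have hcont : Continuous (fun p : (H × K) × L => p.1 • p.2) := by
    change Continuous (fun p : (H × K) × L => (p.1.1 : L) * p.2 * (p.1.2 : L)⁻¹)
    fun_prop
  have : MeasurableSMul₂ (H × K) L := ⟨hcont.measurable⟩
  have key : ∀ x y : L, SameOrbit (H × K) L x y ↔ SameDoubleCoset H K x y := by
    intro x y
    constructor
    · rintro ⟨p, hp⟩
      exact ⟨p.1, p.1.2, (p.2 : L)⁻¹, K.inv_mem p.2.2, hp⟩
    · rintro ⟨h, hh, k, hk, hx⟩
      refine ⟨(⟨h, hh⟩, ⟨k⁻¹, K.inv_mem hk⟩), ?_⟩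
      change h * x * (k⁻¹)⁻¹ = y
      rw [inv_inv]
      exact hx
  have hst : StandardBorelSpace L := inferInstance
  rcases hb (H × K) L (hP L H K hL) with ⟨A, hA, h⟩ | ⟨f, hf, h⟩
  · left
    refine ⟨A, hA, fun x => ?_⟩
    obtain ⟨a, ha, hx⟩ := h x
    exact ⟨a, ha, (key _ _).1 hx⟩
  · right
    exact ⟨f, hf, fun u v huv hx => h u v huv ((key _ _).2 hx)⟩

theorem homeo_of (hb : Conjecture NonArchimedean) : HomeoCase := by
  intro Δ hΔ
  let _ : TopologicalSpace (Cantor ≃ₜ Cantor) := homeoTopology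
  set Δ' : Subgroup (Pool.Agent.H93.CP.HC Cantor Unit) := Δ.comap toHC.symm.toMonoidHom with hΔ'
  have hcl : IsClosed (Δ' : Set (Pool.Agent.H93.CP.HC Cantor Unit)) :=
    hΔ.preimage continuous_toHC_symm
  have h1 : IsTopologicalGroup (Pool.Agent.H93.CP.HC Cantor Unit) :=
    (Pool.Agent.H93.CP.r_HTG Cantor Unit).1
  have h2 : PolishSpace (Pool.Agent.H93.CP.HC Cantor Unit) := Pool.Agent.H93.CP.r_HPO Cantor Unit
  have h3 : PolishSpace Δ' := hcl.polishSpace
  have h4 : NonArchimedean (Pool.Agent.H93.CP.HC Cantor Unit) :=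
    Pool.Agent.H93.CP.r_HNA Cantor Unit fun U hU => ⟨⊤, isOpen_univ, fun x _ => by
      rw [Subsingleton.elim x 1]
      exact mem_of_mem_nhds hU⟩
  have h5 : Continuous (fun p : Δ' × Cantor => p.1 • p.2) := by
    have h6 := (Pool.Agent.H93.CP.r_HTG Cantor Unit).2.1
    exact h6.comp ((continuous_subtype_val.comp continuous_fst).prodMk continuous_snd)
  have h7 := cantor_of NonArchimedean hb Δ' (nonArch_subgroup Δ' h4) h5
  have h8 : Δ = Δ'.comap toHC.toMonoidHom := by
    ext h
    rfl
  rw [h8, cmh_iff, pmh_iff, ← cmo_iff, ← pmo_iff]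
  exact h7

theorem infinite_symmetric (X : Type) [TopologicalSpace X] [TopologicalSpace.MetrizableSpace X]
    [SigmaCompactSpace X] [MeasurableSpace X] [BorelSpace X] [MulAction (Equiv.Perm ℕ) X]
    (hc : @Continuous (Equiv.Perm ℕ × X) X
      (@instTopologicalSpaceProd _ _ permTopology _) _ (fun p => p.1 • p.2)) :
    CountablyMany (SameOrbit (Equiv.Perm ℕ) X) ∨
      PerfectlyMany (SameOrbit (Equiv.Perm ℕ) X) := by
  have hsc : SecondCountableTopology X := by
    let _ := TopologicalSpace.metrizableSpaceMetric X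
    infer_instance
  rcases Pool.Agent.H16.CX.final Pool.Agent.H16.CX.loc Pool.Agent.H16.CX.bai X hc
      (Or.inl inferInstance) with ⟨D, hD, h⟩ | ⟨f, hf, h⟩
  · left
    refine ⟨D, hD, fun x => ?_⟩
    obtain ⟨g, hg⟩ := h x
    exact ⟨g • x, hg, g, rfl⟩
  · right
    exact ⟨f, hf, fun u v huv ⟨g, hg⟩ => h u v huv g hg⟩

/-! ### Isometry groups and groups with small locally compact pieces -/

/-- The topology of the isometry group of a metric space: pointwise convergence. -/
def isometryTopology (D : Type) [MetricSpace D] : TopologicalSpace (D ≃ᵢ D) :=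
  TopologicalSpace.induced (fun g : D ≃ᵢ D => (g : D → D)) inferInstance

/-- `G` is topologically isomorphic to the isometry group of a locally compact Polish metric space
(a locally compact, complete, separable metric space). -/
def IsometryGroup (G : Type) [Group G] [TopologicalSpace G] : Prop :=
  ∃ (D : Type) (_ : MetricSpace D) (_ : CompleteSpace D)
    (_ : TopologicalSpace.SeparableSpace D) (_ : LocallyCompactSpace D) (e : G ≃* (D ≃ᵢ D)),
    @IsHomeomorph G (D ≃ᵢ D) _ (isometryTopology D) e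

/-- `R` is a closed subgroup, contained and normal in the open subgroup `H`, and `H / R` is locally
compact: `C * R` is a neighbourhood of `1` for some compact set `C`. -/
structure IsPiece {L : Type} [Group L] [TopologicalSpace L] (R H : Subgroup L) : Prop where
  isOpen : IsOpen (H : Set L)
  isClosed : IsClosed (R : Set L)
  le : R ≤ H
  normal : ∀ h ∈ H, ∀ r ∈ R, h * r * h⁻¹ ∈ R
  compact : ∃ C : Set L, IsCompact C ∧ {g : L | ∃ c ∈ C, c⁻¹ * g ∈ R} ∈ 𝓝 (1 : L)

/-- `L` has small pieces: every neighbourhood of `1` contains a closed subgroup `R` which is normal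
in an open subgroup `H` with `H / R` locally compact. (Kwiatkowska and Solecki: for Polish groups
this means that `L` is a closed subgroup of the isometry group of a locally compact separable
metric space.) -/
def HasPieces (L : Type) [Group L] [TopologicalSpace L] : Prop :=
  ∀ U ∈ 𝓝 (1 : L), ∃ R H : Subgroup L, IsPiece R H ∧ ∀ r ∈ R, r ∈ U

/-- `G` is a continuous homomorphic image of a closed subgroup of a Polish group with locally
compact pieces. -/
def PiecesImage (G : Type) [Group G] [TopologicalSpace G] : Prop :=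
  ∃ (L : Type) (_ : Group L) (_ : TopologicalSpace L) (_ : IsTopologicalGroup L)
    (_ : PolishSpace L) (M : Subgroup L) (φ : M →* G), HasPieces L ∧ IsClosed (M : Set L) ∧
      Continuous φ ∧ Function.Surjective φ

theorem sp_of (L : Type) [Group L] [TopologicalSpace L] (h : HasPieces L) :
    Pool.Agent.H7.LR.SP L := by
  intro U hU
  obtain ⟨R, H, h1, h2⟩ := h U hU
  exact ⟨R, H, ⟨h1.isOpen, h1.isClosed, h1.le, h1.normal, h1.compact⟩, h2⟩

theorem of_sp (L : Type) [Group L] [TopologicalSpace L] (h : Pool.Agent.H7.LR.SP L) :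
    HasPieces L := by
  intro U hU
  obtain ⟨R, H, h1, h2⟩ := h U hU
  exact ⟨R, H, ⟨h1.op, h1.cl, h1.le, h1.nor, h1.lc⟩, h2⟩

theorem pieces_of (L : Type) [Group L] [TopologicalSpace L]
    (h : Nonempty (Pool.Agent.H7.LP.LPD L)) : HasPieces L := by
  obtain ⟨⟨H, R, h1, h2, h3, h4, h5⟩⟩ := h
  intro U hU
  obtain ⟨k, hk⟩ := h4 U hU
  exact ⟨R k, H k, ⟨(h1 k).op, (h1 k).cl, (h1 k).le, (h1 k).nor, (h1 k).lc⟩, hk⟩

/-- a closed subgroup of a group with locally compact pieces -/
theorem lpd_of (G : Type) [Group G] [TopologicalSpace G] (hG : PiecesImage G) :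
    ∃ (L : Type) (_ : Group L) (_ : TopologicalSpace L) (_ : IsTopologicalGroup L)
      (_ : PolishSpace L) (M : Subgroup L) (φ : M →* G), Nonempty (Pool.Agent.H7.LP.LPD L) ∧
      IsClosed (M : Set L) ∧ Continuous φ ∧ Function.Surjective φ := by
  obtain ⟨L, i1, i2, i3, i4, M, φ, hL, hM, hφ, hs⟩ := hG
  obtain ⟨N, j1, j2, j3, j4, χ, hN, hχ⟩ := Pool.Agent.H7.LR.r_KSE L (sp_of L hL)
  let e : M ≃* M.map χ := M.equivMapOfInjective χ hχ.injective
  have he : Continuous e.symm := by
    have h1 : Topology.IsInducing (fun m : M => χ m) :=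
      hχ.isInducing.comp Topology.IsInducing.subtypeVal
    rw [h1.continuous_iff]
    have h2 : ((fun m : M => χ m) ∘ e.symm : M.map χ → N) = Subtype.val := by
      funext y
      obtain ⟨m, rfl⟩ := e.surjective y
      simp only [Function.comp_apply, MulEquiv.symm_apply_apply]
      rfl
    rw [h2]
    exact continuous_subtype_val
  refine ⟨N, j1, j2, j3, j4, M.map χ, φ.comp e.symm.toMonoidHom, hN, ?_, hφ.comp he,
    hs.comp e.symm.surjective⟩
  rw [Subgroup.coe_map]
  exact hχ.isClosedMap _ hM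

theorem image_of (L : Type) [Group L] [TopologicalSpace L] [IsTopologicalGroup L] [PolishSpace L]
    (h : HasPieces L) : PiecesImage L := by
  refine ⟨L, inferInstance, inferInstance, inferInstance, inferInstance, ⊤,
    (⊤ : Subgroup L).subtype, h, isClosed_univ, continuous_subtype_val,
    fun x => ⟨⟨x, trivial⟩, rfl⟩⟩

/-! ### Countable structures -/

/-- A countable structure: countably many binary relations on `ℕ`; the `n`-th relation holds
between `i` and `j` if `w i j n = true`. -/
abbrev Structure : Type := ℕ → ℕ → ℕ → Bool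

/-- Isomorphism of countable structures. -/
def Isomorphic (w w' : Structure) : Prop :=
  ∃ π : Equiv.Perm ℕ, ∀ i j n, w' i j n = w (π i) (π j) n

/-- A Borel class of countable structures: a Borel set of structures which is closed under
isomorphism. (By a theorem of Lopez-Escobar these are the sets of the models of the sentences of
`L_{ω₁ω}`.) -/
def BorelClass (W : Set Structure) : Prop :=
  MeasurableSet W ∧ ∀ w w', w ∈ W → Isomorphic w w' → w' ∈ W

/-- Vaught's conjecture for `L_{ω₁ω}`: every Borel class of countable structures has countably or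
perfectly many isomorphism types. -/
def VaughtConjecture : Prop :=
  ∀ W : Set Structure, BorelClass W →
    CountablyMany (fun w w' : W => Isomorphic w.1 w'.1) ∨
      PerfectlyMany (fun w w' : W => Isomorphic w.1 w'.1)

/-- The orbits of `G` on `X` are classified by the isomorphism types of a Borel class of countable
structures, in both directions: there are Borel maps `u : X → W` and `v : W → X` such that `x`, `y`
are in one orbit if and only if `u x`, `u y` are isomorphic, and `u (v w)` is isomorphic to `w`. -/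
def Classified (G X : Type) [Group G] [MulAction G X] [MeasurableSpace X] : Prop :=
  ∃ (W : Set Structure) (u : X → W) (v : W → X), BorelClass W ∧ Measurable u ∧ Measurable v ∧
    (∀ x y, SameOrbit G X x y ↔ Isomorphic (u x).1 (u y).1) ∧
    ∀ w : W, Isomorphic (u (v w)).1 w.1

theorem iso_symm {w w' : Structure} (h : Isomorphic w w') : Isomorphic w' w := by
  obtain ⟨π, h⟩ := h
  refine ⟨π⁻¹, fun i j n => ?_⟩
  rw [h]
  simp

theorem iso_trans {w w' w'' : Structure} (h : Isomorphic w w') (h' : Isomorphic w' w'') :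
    Isomorphic w w'' := by
  obtain ⟨π, h⟩ := h
  obtain ⟨ρ, h'⟩ := h'
  refine ⟨π * ρ, fun i j n => ?_⟩
  rw [h', h]
  rfl

/-- the classification -/
theorem classified (G X : Type) [TopologicalSpace G] [Group G] [IsTopologicalGroup G]
    [PolishSpace G] [MeasurableSpace G] [BorelSpace G] [MeasurableSpace X] [StandardBorelSpace X]
    [MulAction G X] [MeasurableSMul₂ G X] (hG : PiecesImage G) : Classified G X := by
  obtain ⟨L, i1, i2, i3, i4, M, φ, ⟨D⟩, hM, hφ, hs⟩ := lpd_of G hG
  let _ : MeasurableSpace L := borel L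
  have : BorelSpace L := ⟨rfl⟩
  let aM : MulAction M X := MulAction.compHom X φ
  have hsm : ∀ (m : M) (x : X), m • x = φ m • x := fun _ _ => rfl
  have hme : MeasurableSMul₂ M X := by
    refine ⟨?_⟩
    have h1 : Measurable (fun p : M × X => (φ p.1, p.2)) :=
      (hφ.measurable.comp measurable_fst).prodMk measurable_snd
    have h2 : Measurable (fun p : G × X => p.1 • p.2) := measurable_smul
    exact h2.comp h1
  obtain ⟨W, u, hW, hinv, hu, huW, huo, v, hv, hvu⟩ := Pool.Agent.H7.LQ.r_TRS L X D M hM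
  refine ⟨W, fun x => ⟨u x, huW x⟩, v, ⟨hW, hinv⟩, hu.subtype_mk, hv, fun x y => ?_, hvu⟩
  refine Iff.trans ?_ (huo x y)
  constructor
  · rintro ⟨g, hg⟩
    obtain ⟨m, rfl⟩ := hs g
    exact ⟨m, hg⟩
  · rintro ⟨m, hm⟩
    exact ⟨φ m, hm⟩

theorem cm_of (G X : Type) [Group G] [MulAction G X] [MeasurableSpace X] (W : Set Structure)
    (u : X → W) (v : W → X) (hu : Measurable u) (hv : Measurable v)
    (h1 : ∀ x y, SameOrbit G X x y ↔ Isomorphic (u x).1 (u y).1)
    (h2 : ∀ w : W, Isomorphic (u (v w)).1 w.1) :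
    (CountablyMany (fun w w' : W => Isomorphic w.1 w'.1) ↔ CountablyMany (SameOrbit G X)) ∧
    (PerfectlyMany (fun w w' : W => Isomorphic w.1 w'.1) ↔ PerfectlyMany (SameOrbit G X)) := by
  refine ⟨⟨?_, ?_⟩, ⟨?_, ?_⟩⟩
  · rintro ⟨A, hA, h⟩
    refine ⟨v '' A, hA.image _, fun x => ?_⟩
    obtain ⟨a, ha, hxa⟩ := h (u x)
    exact ⟨v a, ⟨a, ha, rfl⟩, (h1 _ _).2 (iso_trans hxa (iso_symm (h2 a)))⟩
  · rintro ⟨A, hA, h⟩
    refine ⟨u '' A, hA.image _, fun w => ?_⟩
    obtain ⟨a, ha, hwa⟩ := h (v w)
    exact ⟨u a, ⟨a, ha, rfl⟩, iso_trans (iso_symm (h2 w)) ((h1 _ _).1 hwa)⟩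
  · rintro ⟨f, hf, h⟩
    refine ⟨v ∘ f, hv.comp hf, fun s t hst hc => h s t hst ?_⟩
    exact iso_trans (iso_symm (h2 _)) (iso_trans ((h1 _ _).1 hc) (h2 _))
  · rintro ⟨f, hf, h⟩
    exact ⟨u ∘ f, hu.comp hf, fun s t hst hc => h s t hst ((h1 _ _).2 hc)⟩

/-- a Borel class as a Borel space of a non-archimedean group -/
theorem group_of (W : Set Structure) (hW : BorelClass W) :
    ∃ (P : Type) (_ : TopologicalSpace P) (_ : Group P) (_ : IsTopologicalGroup P)
      (_ : PolishSpace P) (_ : MeasurableSpace P) (_ : BorelSpace P) (_ : MulAction P W)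
      (_ : MeasurableSMul₂ P W), NonArchimedean P ∧
      (CountablyMany (SameOrbit P W) ↔ CountablyMany (fun w w' : W => Isomorphic w.1 w'.1)) ∧
      (PerfectlyMany (SameOrbit P W) ↔ PerfectlyMany (fun w w' : W => Isomorphic w.1 w'.1)) := by
  obtain ⟨P, j1, j2, j3, j4, j5, j6, j7, j8, h1, h2⟩ := Pool.Agent.H7.LQ.r_PGR W hW.1 hW.2
  refine ⟨P, j1, j2, j3, j4, j5, j6, j7, j8, h1, ?_, ?_⟩
  · constructor
    · rintro ⟨A, hA, h⟩
      refine ⟨A, hA, fun w => ?_⟩
      obtain ⟨a, ha, hw⟩ := h w
      exact ⟨a, ha, (h2 _ _).1 hw⟩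
    · rintro ⟨A, hA, h⟩
      refine ⟨A, hA, fun w => ?_⟩
      obtain ⟨a, ha, hw⟩ := h w
      exact ⟨a, ha, (h2 _ _).2 hw⟩
  · constructor
    · rintro ⟨f, hf, h⟩
      exact ⟨f, hf, fun s t hst hc => h s t hst ((h2 _ _).2 hc)⟩
    · rintro ⟨f, hf, h⟩
      exact ⟨f, hf, fun s t hst hc => h s t hst ((h2 _ _).1 hc)⟩

/-- the transfer -/
theorem transfer (G X : Type) [TopologicalSpace G] [Group G] [IsTopologicalGroup G]
    [PolishSpace G] [MeasurableSpace G] [BorelSpace G] [MeasurableSpace X] [StandardBorelSpace X]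
    [MulAction G X] [MeasurableSMul₂ G X] (hG : PiecesImage G) :
    ∃ (P Z : Type) (_ : TopologicalSpace P) (_ : Group P) (_ : IsTopologicalGroup P)
      (_ : PolishSpace P) (_ : MeasurableSpace P) (_ : BorelSpace P)
      (_ : MeasurableSpace Z) (_ : StandardBorelSpace Z) (_ : MulAction P Z)
      (_ : MeasurableSMul₂ P Z), NonArchimedean P ∧
      (CountablyMany (SameOrbit P Z) ↔ CountablyMany (SameOrbit G X)) ∧
      (PerfectlyMany (SameOrbit P Z) ↔ PerfectlyMany (SameOrbit G X)) := by
  obtain ⟨W, u, v, hW, hu, hv, h1, h2⟩ := classified G X hG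
  obtain ⟨P, j1, j2, j3, j4, j5, j6, j7, j8, k1, k2, k3⟩ := group_of W hW
  have hst : StandardBorelSpace W := hW.1.standardBorel
  obtain ⟨c1, c2⟩ := cm_of G X W u v hu hv h1 h2
  exact ⟨P, W, j1, j2, j3, j4, j5, j6, inferInstance, hst, j7, j8, k1, k2.trans c1, k3.trans c2⟩

theorem image_of_isometry (G : Type) [Group G] [TopologicalSpace G] (h : IsometryGroup G) :
    PiecesImage G := by
  obtain ⟨D, i1, i2, i3, i4, e, he⟩ := h
  obtain ⟨L, j1, j2, j3, j4, φ, hL, hφ⟩ := Pool.Agent.H7.LP.r_X9 D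
  let τ : TopologicalSpace (D ≃ᵢ D) := isometryTopology D
  have hφ' : Topology.IsClosedEmbedding φ := hφ
  let ψ : φ.range ≃* (D ≃ᵢ D) := (MonoidHom.ofInjective hφ'.injective).symm
  have hψ : Continuous ψ := by
    have h1 : Topology.IsInducing φ := hφ'.isInducing
    rw [h1.continuous_iff]
    have h2 : (φ ∘ ψ : φ.range → L) = Subtype.val := by
      funext y
      obtain ⟨g, rfl⟩ := (MonoidHom.ofInjective hφ'.injective).surjective y
      simp only [ψ, Function.comp_apply, MulEquiv.symm_apply_apply]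
      rfl
    rw [h2]
    exact continuous_subtype_val
  refine ⟨L, j1, j2, j3, j4, φ.range, e.symm.toMonoidHom.comp ψ.toMonoidHom, pieces_of L hL, ?_,
    ?_, ?_⟩
  · rw [MonoidHom.coe_range]
    exact hφ'.isClosed_range
  · have h1 : Continuous e.symm := by
      refine ⟨fun U hU => ?_⟩
      have h2 := he.isOpenMap U hU
      have h3 : e '' U = e.symm ⁻¹' U := e.toEquiv.image_eq_preimage_symm U
      rw [h3] at h2
      exact h2
    exact h1.comp hψ
  · exact e.symm.surjective.comp ψ.surjective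

theorem nonArch_of_isometry (hb : Conjecture IsometryGroup) : Conjecture NonArchimedean := by
  intro G _ _ _ _ _ _ X _ _ _ _ hG
  obtain ⟨D, i1, i2, i3, i4, φ, hφ⟩ := Pool.Agent.H7.LP.r_ISD G hG
  obtain ⟨k1, k2, -⟩ := Pool.Agent.H7.LP.r_X6 D
  let _ : MeasurableSpace (D ≃ᵢ D) := borel _
  have : BorelSpace (D ≃ᵢ D) := ⟨rfl⟩
  let ψ : G ≃* φ.range := MonoidHom.ofInjective hφ.injective
  have hψc : Continuous ψ.symm := by
    rw [hφ.isInducing.continuous_iff]
    have h2 : (φ ∘ ψ.symm : φ.range → (D ≃ᵢ D)) = Subtype.val := by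
      funext y
      obtain ⟨g, rfl⟩ := ψ.surjective y
      simp only [Function.comp_apply, MulEquiv.symm_apply_apply]
      rfl
    rw [h2]
    exact continuous_subtype_val
  let aM : MulAction φ.range X := MulAction.compHom X ψ.symm.toMonoidHom
  have hsm : ∀ (m : φ.range) (x : X), m • x = ψ.symm m • x := fun _ _ => rfl
  have hme : MeasurableSMul₂ φ.range X := by
    refine ⟨?_⟩
    have h1 : Measurable (fun p : φ.range × X => (ψ.symm p.1, p.2)) :=
      (hψc.measurable.comp measurable_fst).prodMk measurable_snd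
    have h2 : Measurable (fun p : G × X => p.1 • p.2) := measurable_smul
    exact h2.comp h1
  have hcl : IsClosed (φ.range : Set (D ≃ᵢ D)) := by
    rw [MonoidHom.coe_range]
    exact hφ.isClosed_range
  obtain ⟨Z, j7, j8, j9, j10, h1, h2⟩ := Pool.Agent.H7.LP.r_IND (D ≃ᵢ D) X φ.range hcl
  have hiso : IsometryGroup (D ≃ᵢ D) :=
    ⟨D, i1, i2, i3, i4, MulEquiv.refl _, (Homeomorph.refl _).isHomeomorph⟩
  have hc := hb (D ≃ᵢ D) Z hiso
  rw [cmo_iff, pmo_iff, h1, h2] at hc
  rcases hc with ⟨A, hA, h⟩ | ⟨f, hf, h⟩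
  · left
    refine ⟨A, hA, fun x => ?_⟩
    obtain ⟨m, hm⟩ := h x
    exact ⟨m • x, hm, ψ.symm m, rfl⟩
  · right
    refine ⟨f, hf, fun u v huv ⟨g, hg⟩ => h u v huv (ψ g) ?_⟩
    rw [hsm, MulEquiv.symm_apply_apply]
    exact hg

/-- **Theorem.** The orbits of an isometry group of a locally compact Polish metric space (and of
images of closed subgroups of Polish groups with small pieces) on any Borel space are
classified by a Borel class of countable structures, in both directions. So Vaught's conjecture is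
equivalent to Q1 for these groups, to the dichotomy for closed subgroups of the homeomorphism group
of the Cantor space, and to the dichotomy for double cosets in non-archimedean groups. For all
Polish groups, continuous actions on the Cantor space, and double cosets, are the whole topological
Vaught conjecture; for `S_∞` itself, continuous actions on the Cantor space, and on all `σ`-compact
metrizable spaces, satisfy it. -/
theorem result :
    (∀ (G X : Type) [TopologicalSpace G] [Group G] [IsTopologicalGroup G] [PolishSpace G]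
      [MeasurableSpace G] [BorelSpace G] [MeasurableSpace X] [StandardBorelSpace X]
      [MulAction G X] [MeasurableSMul₂ G X],
      (PiecesImage G → Classified G X) ∧
      (PiecesImage G → ∃ Δ : Subgroup (Cantor ≃ₜ Cantor),
        IsClosed[homeoTopology] (Δ : Set (Cantor ≃ₜ Cantor)) ∧
        (CountablyMany (SameHomeoOrbit Δ) ↔ CountablyMany (SameOrbit G X)) ∧
        (PerfectlyMany (SameHomeoOrbit Δ) ↔ PerfectlyMany (SameOrbit G X))) ∧
      (∃ (Γ : Type) (_ : TopologicalSpace Γ) (_ : Group Γ) (_ : IsTopologicalGroup Γ)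
        (_ : PolishSpace Γ) (_ : MulAction Γ Cantor),
        Continuous (fun p : Γ × Cantor => p.1 • p.2) ∧ (PiecesImage G → NonArchimedean Γ) ∧
        (CountablyMany (SameOrbit Γ Cantor) ↔ CountablyMany (SameOrbit G X)) ∧
        (PerfectlyMany (SameOrbit Γ Cantor) ↔ PerfectlyMany (SameOrbit G X))) ∧
      (∃ (L : Type) (_ : TopologicalSpace L) (_ : Group L) (_ : IsTopologicalGroup L)
        (_ : PolishSpace L) (_ : MeasurableSpace L) (_ : BorelSpace L) (H K : Subgroup L),
        IsClosed (H : Set L) ∧ IsClosed (K : Set L) ∧ (PiecesImage G → NonArchimedean L) ∧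
        (CountablyMany (SameDoubleCoset H K) ↔ CountablyMany (SameOrbit G X)) ∧
        (PerfectlyMany (SameDoubleCoset H K) ↔ PerfectlyMany (SameOrbit G X)))) ∧
    (VaughtConjecture ↔ Conjecture NonArchimedean) ∧
    (VaughtConjecture ↔ Conjecture IsometryGroup) ∧
    (VaughtConjecture ↔ Conjecture PiecesImage) ∧
    (VaughtConjecture ↔ HomeoCase) ∧
    (VaughtConjecture ↔ DoubleCosetCase NonArchimedean) ∧
    (Conjecture (fun _ => True) ↔ CantorCase) ∧
    (Conjecture (fun _ => True) ↔ DoubleCosetCase (fun _ => True)) ∧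
    (∀ (G : Type) [Group G] [TopologicalSpace G] [IsTopologicalGroup G] [PolishSpace G],
      (LocallyCompactSpace G → HasPieces G) ∧ (NonArchimedean G → HasPieces G) ∧
      (HasPieces G → PiecesImage G) ∧ (IsometryGroup G → PiecesImage G)) ∧
    (∀ (G : ℕ → Type) [∀ n, Group (G n)] [∀ n, TopologicalSpace (G n)]
      [∀ n, IsTopologicalGroup (G n)] [∀ n, PolishSpace (G n)],
      (∀ n, HasPieces (G n)) → HasPieces (∀ n, G n)) ∧
    ∀ (X : Type) [TopologicalSpace X] [TopologicalSpace.MetrizableSpace X] [SigmaCompactSpace X]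
      [MeasurableSpace X] [BorelSpace X] [MulAction (Equiv.Perm ℕ) X],
      @Continuous (Equiv.Perm ℕ × X) X (@instTopologicalSpaceProd _ _ permTopology _) _
        (fun p => p.1 • p.2) →
      CountablyMany (SameOrbit (Equiv.Perm ℕ) X) ∨
        PerfectlyMany (SameOrbit (Equiv.Perm ℕ) X) := by
  have T1 : ∀ (G X : Type) [TopologicalSpace G] [Group G] [IsTopologicalGroup G] [PolishSpace G]
      [MeasurableSpace G] [BorelSpace G] [MeasurableSpace X] [StandardBorelSpace X]
      [MulAction G X] [MeasurableSMul₂ G X],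
      ∃ (Γ : Type) (_ : TopologicalSpace Γ) (_ : Group Γ) (_ : IsTopologicalGroup Γ)
        (_ : PolishSpace Γ) (_ : MulAction Γ Cantor),
        Continuous (fun p : Γ × Cantor => p.1 • p.2) ∧ (PiecesImage G → NonArchimedean Γ) ∧
        (CountablyMany (SameOrbit Γ Cantor) ↔ CountablyMany (SameOrbit G X)) ∧
        (PerfectlyMany (SameOrbit Γ Cantor) ↔ PerfectlyMany (SameOrbit G X)) := by
    intro G X _ _ _ _ _ _ _ _ _ _
    by_cases hG : PiecesImage G
    · obtain ⟨P, Z, j1, j2, j3, j4, j5, j6, j7, j8, j9, j10, k1, k2, k3⟩ := transfer G X hG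
      obtain ⟨Γ, h1, h2, h3, h4, h5, h6, h7, h8, h9⟩ := reduction_one P Z
      exact ⟨Γ, h1, h2, h3, h4, h5, h6, fun _ => h7 k1, h8.trans k2, h9.trans k3⟩
    · obtain ⟨Γ, h1, h2, h3, h4, h5, h6, h7, h8, h9⟩ := reduction_one G X
      exact ⟨Γ, h1, h2, h3, h4, h5, h6, fun h => absurd h hG, h8, h9⟩
  have H1 : ∀ (G X : Type) [TopologicalSpace G] [Group G] [IsTopologicalGroup G] [PolishSpace G]
      [MeasurableSpace G] [BorelSpace G] [MeasurableSpace X] [StandardBorelSpace X]
      [MulAction G X] [MeasurableSMul₂ G X],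
      ∃ (L : Type) (_ : TopologicalSpace L) (_ : Group L) (_ : IsTopologicalGroup L)
        (_ : PolishSpace L) (_ : MeasurableSpace L) (_ : BorelSpace L) (H K : Subgroup L),
        IsClosed (H : Set L) ∧ IsClosed (K : Set L) ∧ (PiecesImage G → NonArchimedean L) ∧
        (CountablyMany (SameDoubleCoset H K) ↔ CountablyMany (SameOrbit G X)) ∧
        (PerfectlyMany (SameDoubleCoset H K) ↔ PerfectlyMany (SameOrbit G X)) := by
    intro G X _ _ _ _ _ _ _ _ _ _
    obtain ⟨Γ, h1, h2, h3, h4, h5, h6, h7, h8, h9⟩ := T1 G X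
    obtain ⟨L, i1, i2, i3, i4, i5, i6, H, K, hH, hK, i7, i8, i9⟩ := reduction_two Γ h6
    exact ⟨L, i1, i2, i3, i4, i5, i6, H, K, hH, hK, fun h => i7 (h7 h), i8.trans h8,
      i9.trans h9⟩
  have H2 : ∀ (G X : Type) [TopologicalSpace G] [Group G] [IsTopologicalGroup G] [PolishSpace G]
      [MeasurableSpace G] [BorelSpace G] [MeasurableSpace X] [StandardBorelSpace X]
      [MulAction G X] [MeasurableSMul₂ G X],
      PiecesImage G → ∃ Δ : Subgroup (Cantor ≃ₜ Cantor),
        IsClosed[homeoTopology] (Δ : Set (Cantor ≃ₜ Cantor)) ∧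
        (CountablyMany (SameHomeoOrbit Δ) ↔ CountablyMany (SameOrbit G X)) ∧
        (PerfectlyMany (SameHomeoOrbit Δ) ↔ PerfectlyMany (SameOrbit G X)) := by
    intro G X _ _ _ _ _ _ _ _ _ _ hG
    obtain ⟨P, Z, j1, j2, j3, j4, j5, j6, j7, j8, j9, j10, k1, k2, k3⟩ := transfer G X hG
    obtain ⟨Δ, hΔ, h8, h9⟩ := Pool.Agent.H93.CP.r_NAR P Z k1
    refine ⟨Δ.comap toHC.toMonoidHom, closed_comap Δ hΔ, ?_, ?_⟩
    · rw [cmh_iff, ← k2, cmo_iff, h8]
    · rw [pmh_iff, ← k3, pmo_iff, h9]
  have hN : ∀ (G : Type) [Group G] [TopologicalSpace G] [IsTopologicalGroup G] [PolishSpace G],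
      NonArchimedean G → HasPieces G := fun G _ _ _ _ h =>
    pieces_of G (Pool.Agent.H7.LP.r_X2 G h)
  have hNP : Conjecture PiecesImage → Conjecture NonArchimedean := by
    intro hb G _ _ _ _ _ _ X _ _ _ _ hG
    exact hb G X (image_of G (hN G hG))
  have hVP : VaughtConjecture → Conjecture PiecesImage := by
    intro hb G _ _ _ _ _ _ X _ _ _ _ hG
    obtain ⟨W, u, v, hW, hu, hv, h1, h2⟩ := classified G X hG
    obtain ⟨c1, c2⟩ := cm_of G X W u v hu hv h1 h2
    rw [← c1, ← c2]
    exact hb W hW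
  have hNV : Conjecture NonArchimedean → VaughtConjecture := by
    intro hb W hW
    obtain ⟨P, j1, j2, j3, j4, j5, j6, j7, j8, k1, k2, k3⟩ := group_of W hW
    have hst : StandardBorelSpace W := hW.1.standardBorel
    rw [← k2, ← k3]
    exact hb P W k1
  have hHP : HomeoCase → Conjecture PiecesImage := by
    intro hb G _ _ _ _ _ _ X _ _ _ _ hG
    obtain ⟨Δ, hΔ, h8, h9⟩ := H2 G X hG
    rw [← h8, ← h9]
    exact hb Δ hΔ
  have hDP : DoubleCosetCase NonArchimedean → Conjecture PiecesImage := by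
    intro hb G _ _ _ _ _ _ X _ _ _ _ hG
    obtain ⟨L, i1, i2, i3, i4, i5, i6, H, K, hH, hK, i7, i8, i9⟩ := H1 G X
    rw [← i8, ← i9]
    exact hb L H K (i7 hG) hH hK
  refine ⟨fun G X _ _ _ _ _ _ _ _ _ _ => ⟨classified G X, H2 G X, T1 G X, H1 G X⟩,
    ⟨fun hb => hNP (hVP hb), hNV⟩, ⟨fun hb => ?_, fun hb => hNV (nonArch_of_isometry hb)⟩,
    ⟨hVP, fun hb => hNV (hNP hb)⟩,
    ⟨fun hb => homeo_of (hNP (hVP hb)), fun hb => hNV (hNP (hHP hb))⟩,
    ⟨fun hb => ?_, fun hb => hNV (hNP (hDP hb))⟩,
    ⟨fun hb G _ _ _ _ _ hc => cantor_of (fun _ => True) hb G trivial hc, fun hb => ?_⟩,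
    ⟨fun hb => ?_, fun hb => ?_⟩, ?_, ?_, ?_⟩
  · intro G _ _ _ _ _ _ X _ _ _ _ hG
    exact hVP hb G X (image_of_isometry G hG)
  · exact doubleCoset_of NonArchimedean (hNP (hVP hb)) fun L _ _ _ H K hL => nonArch_prod _ _
      (nonArch_subgroup H hL) (nonArch_subgroup K hL)
  · intro G _ _ _ _ _ _ X _ _ _ _ hG
    obtain ⟨Γ, h1, h2, h3, h4, h5, h6, h7, h8, h9⟩ := reduction_one G X
    rw [← h8, ← h9]
    exact hb Γ h6
  · exact doubleCoset_of (fun _ => True) hb fun _ _ _ _ _ _ _ => trivial
  · intro G _ _ _ _ _ _ X _ _ _ _ hG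
    obtain ⟨L, i1, i2, i3, i4, i5, i6, H, K, hH, hK, i7, i8, i9⟩ := H1 G X
    rw [← i8, ← i9]
    exact hb L H K trivial hH hK
  · intro G _ _ _ _
    refine ⟨fun h => pieces_of G (Pool.Agent.H7.LP.r_X1 G), hN G, image_of G,
      image_of_isometry G⟩
  · intro G _ _ _ _ hG
    exact of_sp _ (Pool.Agent.H7.LR.r_KSP G fun n => sp_of _ (hG n))
  · intro X _ _ _ _ _ _ hc
    exact infinite_symmetric X hc

end Pool.Agent.H7.Keep.IsometryGroups3
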