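import Pool.Agent.H7.LP.All3
import Pool.Agent.H93.CP.All
import Pool.Agent.H7.TM.Tame

/-!
# Vaught's conjecture and isometry groups of locally compact spaces

Q1 (the topological Vaught conjecture): every Polish group `G` has countably or perfectly many
orbits on every Borel `G`-space `X`.

* Let `G` be the isometry group of a locally compact Polish metric space or, more generally, a
  continuous homomorphic image of a closed subgroup of a Polish group `L` with small pieces (every
  neighbourhood of `1` contains a closed subgroup, normal in an open subgroup with locally compact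
  quotient); these include all locally compact and all non-archimedean Polish groups, and countable
  products.
  Then the orbits of `G` on every Borel `G`-space `X` are classified by the isomorphism types of a
  Borel class of countable structures: there are Borel maps from `X` to the class and back which
  induce inverse bijections of the set of orbits and the set of isomorphism types.
* So Q1 for the isometry groups of all locally compact Polish metric spaces, and Q1 for all these
  groups `G`, are equivalent to Vaught's conjecture (for sentences of `L_{ω₁ω}`: every Borel class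
  of countable structures has countably or perfectly many isomorphism types). They are also
  equivalent to: every closed subgroup of `Homeo(2^ℕ)` has countably or perfectly many orbits on
  `2^ℕ`; and to the dichotomy for double cosets of closed subgroups of non-archimedean groups.
* For all Polish groups: Q1 is equivalent to its case of continuous actions on the Cantor space,
  and to its case of double cosets of closed subgroups.
* For the group `S_∞` itself: for every continuous action on a Polish or `σ`-compact metrizable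
  space there are perfectly many orbits, or only countably many orbits contain tame points. All
  points of `σ`-compact spaces are tame, so the dichotomy is true for all continuous actions of
  `S_∞` on the Cantor space, and on all `σ`-compact metrizable spaces.
-/

set_option autoImplicit false

open Set Filter Topology

namespace Pool.Agent.Results.MP_5607ba_lc.IsometryGroups

/-- The Cantor space. -/
abbrev Cantor : Type := ℕ → Bool

/-- A countable set meets all classes of `R`. -/
def CountablyMany {X : Type} (R : X → X → Prop) : Prop :=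
  ∃ A : Set X, A.Countable ∧ ∀ x : X, ∃ a ∈ A, R x a

/-- A Borel map from the Cantor space takes distinct points to points of distinct classes. -/
def PerfectlyMany {X : Type} [MeasurableSpace X] (R : X → X → Prop) : Prop :=
  ∃ f : Cantor → X, Measurable f ∧ ∀ u v, u ≠ v → ¬ R (f u) (f v)

/-- The orbit equivalence relation of an action of `G` on `X`. -/
def SameOrbit (G X : Type) [Group G] [MulAction G X] (x y : X) : Prop := ∃ g : G, g • x = y

/-- `x` and `y` are in the same double coset of `H` and `K`. -/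
def SameDoubleCoset {L : Type} [Group L] (H K : Subgroup L) (x y : L) : Prop :=
  ∃ h ∈ H, ∃ k ∈ K, h * x * k = y

/-- The orbit equivalence relation of a group of homeomorphisms of the Cantor space. -/
def SameHomeoOrbit (Δ : Subgroup (Cantor ≃ₜ Cantor)) (x y : Cantor) : Prop := ∃ h ∈ Δ, h x = y

/-- The usual topology of the homeomorphism group of the Cantor space: uniform convergence of `h`
and `h⁻¹`. -/
def homeoTopology : TopologicalSpace (Cantor ≃ₜ Cantor) :=
  TopologicalSpace.induced (fun h : Cantor ≃ₜ Cantor =>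
    ((⟨h, h.continuous⟩ : C(Cantor, Cantor)), (⟨h.symm, h.symm.continuous⟩ : C(Cantor, Cantor))))
    inferInstance

/-- The usual topology of `S_∞ = Sym(ℕ)`: pointwise convergence of `g` and `g⁻¹`. -/
def permTopology : TopologicalSpace (Equiv.Perm ℕ) :=
  TopologicalSpace.induced
    (fun g : Equiv.Perm ℕ => ((g : ℕ → ℕ), (g.symm : ℕ → ℕ))) inferInstance

/-- The open subgroups form a base of neighbourhoods of `1`. (For Polish groups: `G` is isomorphic
to a closed subgroup of `S_∞`.) -/
def NonArchimedean (G : Type) [Group G] [TopologicalSpace G] : Prop :=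
  ∀ U ∈ 𝓝 (1 : G), ∃ V : Subgroup G, IsOpen (V : Set G) ∧ (V : Set G) ⊆ U

/-- Q1 for the Polish groups in the class `P`. -/
def Conjecture (P : ∀ (G : Type) [Group G] [TopologicalSpace G], Prop) : Prop :=
  ∀ (G : Type) [TopologicalSpace G] [Group G] [IsTopologicalGroup G] [PolishSpace G]
    [MeasurableSpace G] [BorelSpace G] (X : Type) [MeasurableSpace X] [StandardBorelSpace X]
    [MulAction G X] [MeasurableSMul₂ G X], P G →
    CountablyMany (SameOrbit G X) ∨ PerfectlyMany (SameOrbit G X)

/-- The case of continuous actions on the Cantor space. -/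
def CantorCase : Prop :=
  ∀ (G : Type) [TopologicalSpace G] [Group G] [IsTopologicalGroup G] [PolishSpace G]
    [MulAction G Cantor], Continuous (fun p : G × Cantor => p.1 • p.2) →
    CountablyMany (SameOrbit G Cantor) ∨ PerfectlyMany (SameOrbit G Cantor)

/-- The case of double cosets of closed subgroups. -/
def DoubleCosetCase (P : ∀ (G : Type) [Group G] [TopologicalSpace G], Prop) : Prop :=
  ∀ (L : Type) [TopologicalSpace L] [Group L] [IsTopologicalGroup L] [PolishSpace L]
    [MeasurableSpace L] [BorelSpace L] (H K : Subgroup L), P L →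
    IsClosed (H : Set L) → IsClosed (K : Set L) →
    CountablyMany (SameDoubleCoset H K) ∨ PerfectlyMany (SameDoubleCoset H K)

/-- The case of closed groups of homeomorphisms of the Cantor space. -/
def HomeoCase : Prop :=
  ∀ Δ : Subgroup (Cantor ≃ₜ Cantor), IsClosed[homeoTopology] (Δ : Set (Cantor ≃ₜ Cantor)) →
    CountablyMany (SameHomeoOrbit Δ) ∨ PerfectlyMany (SameHomeoOrbit Δ)

theorem cmo_iff (G X : Type) [Group G] [MulAction G X] :
    CountablyMany (SameOrbit G X) ↔ Pool.Agent.H93.CP.CMO G X := by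
  constructor
  · rintro ⟨A, hA, h⟩
    refine ⟨A, hA, fun x => ?_⟩
    obtain ⟨a, ha, g, rfl⟩ := h x
    exact ⟨g, ha⟩
  · rintro ⟨A, hA, h⟩
    refine ⟨A, hA, fun x => ?_⟩
    obtain ⟨g, hg⟩ := h x
    exact ⟨g • x, hg, g, rfl⟩

theorem pmo_iff (G X : Type) [Group G] [MulAction G X] [MeasurableSpace X] :
    PerfectlyMany (SameOrbit G X) ↔ Pool.Agent.H93.CP.PMO G X := by
  constructor
  · rintro ⟨f, hf, h⟩
    exact ⟨f, hf, fun u v huv g hg => h u v huv ⟨g, hg⟩⟩
  · rintro ⟨f, hf, h⟩
    exact ⟨f, hf, fun u v huv ⟨g, hg⟩ => h u v huv g hg⟩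

theorem cmd_iff {L : Type} [Group L] (H K : Subgroup L) :
    CountablyMany (SameDoubleCoset H K) ↔ Pool.Agent.H93.CP.CMD H K := by
  constructor
  · rintro ⟨A, hA, h⟩
    refine ⟨A, hA, fun x => ?_⟩
    obtain ⟨a, ha, h1, hh1, k1, hk1, rfl⟩ := h x
    exact ⟨h1, hh1, k1, hk1, ha⟩
  · rintro ⟨A, hA, h⟩
    refine ⟨A, hA, fun x => ?_⟩
    obtain ⟨h1, hh1, k1, hk1, ha⟩ := h x
    exact ⟨_, ha, h1, hh1, k1, hk1, rfl⟩

theorem pmd_iff {L : Type} [Group L] [MeasurableSpace L] (H K : Subgroup L) :
    PerfectlyMany (SameDoubleCoset H K) ↔ Pool.Agent.H93.CP.PMD H K := by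
  constructor
  · rintro ⟨f, hf, h⟩
    exact ⟨f, hf, fun u v huv h1 hh1 k1 hk1 hg => h u v huv ⟨h1, hh1, k1, hk1, hg⟩⟩
  · rintro ⟨f, hf, h⟩
    exact ⟨f, hf, fun u v huv ⟨h1, hh1, k1, hk1, hg⟩ => h u v huv h1 hh1 k1 hk1 hg⟩

/-- the homeomorphism group of the Cantor space as a group of the proof -/
def toHC : (Cantor ≃ₜ Cantor) ≃* Pool.Agent.H93.CP.HC Cantor Unit where
  toFun h := ⟨h, 1⟩
  invFun a := a.h
  left_inv _ := rfl
  right_inv a := by
    ext y
    · rfl
  map_mul' a b := by
    ext y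
    · rfl

theorem continuous_toHC : @Continuous _ _ homeoTopology _ toHC := by
  let _ := homeoTopology
  refine continuous_induced_rng.2 ?_
  have h1 : Continuous (fun h : Cantor ≃ₜ Cantor =>
      ((⟨h, h.continuous⟩ : C(Cantor, Cantor)),
        (⟨h.symm, h.symm.continuous⟩ : C(Cantor, Cantor)))) := continuous_induced_dom
  exact (continuous_fst.comp h1).prodMk ((continuous_snd.comp h1).prodMk continuous_const)

theorem continuous_toHC_symm : @Continuous _ _ _ homeoTopology toHC.symm := by
  let _ := homeoTopology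
  refine continuous_induced_rng.2 ?_
  have h1 : Continuous (fun a : Pool.Agent.H93.CP.HC Cantor Unit =>
      ((⟨a.h, a.h.continuous⟩ : C(Cantor, Cantor)),
        (⟨a.h.symm, a.h.symm.continuous⟩ : C(Cantor, Cantor)), a.c)) := continuous_induced_dom
  exact (continuous_fst.comp h1).prodMk (continuous_fst.comp (continuous_snd.comp h1))

theorem cmh_iff (Δ : Subgroup (Pool.Agent.H93.CP.HC Cantor Unit)) :
    CountablyMany (SameHomeoOrbit (Δ.comap toHC.toMonoidHom)) ↔
      Pool.Agent.H93.CP.CMO Δ Cantor := by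
  constructor
  · rintro ⟨A, hA, h⟩
    refine ⟨A, hA, fun x => ?_⟩
    obtain ⟨a, ha, g, hg, rfl⟩ := h x
    exact ⟨⟨_, hg⟩, ha⟩
  · rintro ⟨A, hA, h⟩
    refine ⟨A, hA, fun x => ?_⟩
    obtain ⟨⟨g, hg⟩, hga⟩ := h x
    refine ⟨_, hga, g.h, ?_, rfl⟩
    change toHC (toHC.symm g) ∈ Δ
    rw [MulEquiv.apply_symm_apply]
    exact hg

theorem pmh_iff (Δ : Subgroup (Pool.Agent.H93.CP.HC Cantor Unit)) :
    PerfectlyMany (SameHomeoOrbit (Δ.comap toHC.toMonoidHom)) ↔
      Pool.Agent.H93.CP.PMO Δ Cantor := by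
  constructor
  · rintro ⟨f, hf, h⟩
    refine ⟨f, hf, fun u v huv ⟨g, hg⟩ hgu => h u v huv ⟨g.h, ?_, hgu⟩⟩
    change toHC (toHC.symm g) ∈ Δ
    rw [MulEquiv.apply_symm_apply]
    exact hg
  · rintro ⟨f, hf, h⟩
    exact ⟨f, hf, fun u v huv ⟨g, hg, hgu⟩ => h u v huv ⟨_, hg⟩ hgu⟩

theorem closed_comap (Δ : Subgroup (Pool.Agent.H93.CP.HC Cantor Unit))
    (hΔ : IsClosed (Δ : Set (Pool.Agent.H93.CP.HC Cantor Unit))) :
    IsClosed[homeoTopology] ((Δ.comap toHC.toMonoidHom : Subgroup (Cantor ≃ₜ Cantor)) :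
      Set (Cantor ≃ₜ Cantor)) := by
  let _ := homeoTopology
  exact hΔ.preimage continuous_toHC

/-- the reductions -/
theorem reduction_one (G X : Type) [TopologicalSpace G] [Group G] [IsTopologicalGroup G]
    [PolishSpace G] [MeasurableSpace G] [BorelSpace G] [MeasurableSpace X] [StandardBorelSpace X]
    [MulAction G X] [MeasurableSMul₂ G X] :
    ∃ (Γ : Type) (_ : TopologicalSpace Γ) (_ : Group Γ) (_ : IsTopologicalGroup Γ)
        (_ : PolishSpace Γ) (_ : MulAction Γ Cantor),
        Continuous (fun p : Γ × Cantor => p.1 • p.2) ∧ (NonArchimedean G → NonArchimedean Γ) ∧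
        (CountablyMany (SameOrbit Γ Cantor) ↔ CountablyMany (SameOrbit G X)) ∧
        (PerfectlyMany (SameOrbit Γ Cantor) ↔ PerfectlyMany (SameOrbit G X)) := by
  obtain ⟨Δ, h1, h2, h3, h4, h5, h6, h7, h8, h9⟩ := Pool.Agent.H93.CP.r_ONE G X
  refine ⟨Δ, h1, h2, h3, h4, h5, h6, h7, ?_, ?_⟩
  · rw [cmo_iff, cmo_iff, h8]
  · rw [pmo_iff, pmo_iff, h9]

theorem reduction_two (Γ : Type) [TopologicalSpace Γ] [Group Γ] [IsTopologicalGroup Γ]
    [PolishSpace Γ] [MulAction Γ Cantor] (hc : Continuous (fun p : Γ × Cantor => p.1 • p.2)) :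
    ∃ (L : Type) (_ : TopologicalSpace L) (_ : Group L) (_ : IsTopologicalGroup L)
        (_ : PolishSpace L) (_ : MeasurableSpace L) (_ : BorelSpace L) (H K : Subgroup L),
        IsClosed (H : Set L) ∧ IsClosed (K : Set L) ∧ (NonArchimedean Γ → NonArchimedean L) ∧
        (CountablyMany (SameDoubleCoset H K) ↔ CountablyMany (SameOrbit Γ Cantor)) ∧
        (PerfectlyMany (SameDoubleCoset H K) ↔ PerfectlyMany (SameOrbit Γ Cantor)) := by
  obtain ⟨L, h1, h2, h3, h4, h5, h6, H, K, hH, hK, h7, h8, h9⟩ := Pool.Agent.H93.CP.r_DCO Γ hc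
  refine ⟨L, h1, h2, h3, h4, h5, h6, H, K, hH, hK, h7, ?_, ?_⟩
  · rw [cmo_iff, cmd_iff, h8]
  · rw [pmo_iff, pmd_iff, h9]

theorem nonArch_subgroup {L : Type} [TopologicalSpace L] [Group L] (H : Subgroup L)
    (h : NonArchimedean L) : NonArchimedean H := by
  intro U hU
  rw [nhds_subtype] at hU
  obtain ⟨W, hW, hWU⟩ := hU
  obtain ⟨V, hV, hVW⟩ := h W hW
  exact ⟨V.comap H.subtype, hV.preimage continuous_subtype_val, fun x hx => hWU (hVW hx)⟩

theorem nonArch_prod (A B : Type) [TopologicalSpace A] [Group A] [TopologicalSpace B] [Group B]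
    (hA : NonArchimedean A) (hB : NonArchimedean B) : NonArchimedean (A × B) := by
  intro U hU
  change U ∈ 𝓝 ((1 : A), (1 : B)) at hU
  rw [mem_nhds_prod_iff] at hU
  obtain ⟨U1, hU1, U2, hU2, hU12⟩ := hU
  obtain ⟨V1, hV1, h1⟩ := hA U1 hU1
  obtain ⟨V2, hV2, h2⟩ := hB U2 hU2
  refine ⟨V1.prod V2, ?_, ?_⟩
  · rw [Subgroup.coe_prod]
    exact hV1.prod hV2
  · rw [Subgroup.coe_prod]
    exact (Set.prod_mono h1 h2).trans hU12

theorem cantor_of (P : ∀ (G : Type) [Group G] [TopologicalSpace G], Prop) (hb : Conjecture P)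
    (G : Type) [TopologicalSpace G] [Group G] [IsTopologicalGroup G] [PolishSpace G]
    [MulAction G Cantor] (hG : P G) (hc : Continuous (fun p : G × Cantor => p.1 • p.2)) :
    CountablyMany (SameOrbit G Cantor) ∨ PerfectlyMany (SameOrbit G Cantor) := by
  let _ : MeasurableSpace G := borel G
  have : BorelSpace G := ⟨rfl⟩
  have : MeasurableSMul₂ G Cantor := ⟨hc.measurable⟩
  exact hb G Cantor hG

/-- two-sided action -/
@[reducible] def act {L : Type} [Group L] (H K : Subgroup L) : MulAction (H × K) L where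
  smul p x := p.1 * x * (p.2 : L)⁻¹
  one_smul x := by
    change ((1 : H) : L) * x * ((1 : K) : L)⁻¹ = x
    simp
  mul_smul p q x := by
    change ((p.1 * q.1 : H) : L) * x * ((p.2 * q.2 : K) : L)⁻¹ =
      p.1 * (q.1 * x * (q.2 : L)⁻¹) * (p.2 : L)⁻¹
    simp [mul_assoc]

theorem doubleCoset_of (P : ∀ (G : Type) [Group G] [TopologicalSpace G], Prop)
    (hb : Conjecture P)
    (hP : ∀ (L : Type) [Group L] [TopologicalSpace L] [IsTopologicalGroup L]
      (H K : Subgroup L), P L → P (H × K)) : DoubleCosetCase P := by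
  intro L _ _ _ _ _ _ H K hL hH hK
  have : PolishSpace H := hH.polishSpace
  have : PolishSpace K := hK.polishSpace
  let _ := act H K
  let _ : MeasurableSpace (H × K) := borel _
  have : BorelSpace (H × K) := ⟨rfl⟩
  have hcont : Continuous (fun p : (H × K) × L => p.1 • p.2) := by
    change Continuous (fun p : (H × K) × L => (p.1.1 : L) * p.2 * (p.1.2 : L)⁻¹)
    fun_prop
  have : MeasurableSMul₂ (H × K) L := ⟨hcont.measurable⟩
  have key : ∀ x y : L, SameOrbit (H × K) L x y ↔ SameDoubleCoset H K x y := by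
    intro x y
    constructor
    · rintro ⟨p, hp⟩
      exact ⟨p.1, p.1.2, (p.2 : L)⁻¹, K.inv_mem p.2.2, hp⟩
    · rintro ⟨h, hh, k, hk, hx⟩
      refine ⟨(⟨h, hh⟩, ⟨k⁻¹, K.inv_mem hk⟩), ?_⟩
      change h * x * (k⁻¹)⁻¹ = y
      rw [inv_inv]
      exact hx
  have hst : StandardBorelSpace L := inferInstance
  rcases hb (H × K) L (hP L H K hL) with ⟨A, hA, h⟩ | ⟨f, hf, h⟩
  · left
    refine ⟨A, hA, fun x => ?_⟩
    obtain ⟨a, ha, hx⟩ := h x
    exact ⟨a, ha, (key _ _).1 hx⟩
  · right
    exact ⟨f, hf, fun u v huv hx => h u v huv ((key _ _).2 hx)⟩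

theorem homeo_of (hb : Conjecture NonArchimedean) : HomeoCase := by
  intro Δ hΔ
  let _ : TopologicalSpace (Cantor ≃ₜ Cantor) := homeoTopology
  set Δ' : Subgroup (Pool.Agent.H93.CP.HC Cantor Unit) := Δ.comap toHC.symm.toMonoidHom with hΔ'
  have hcl : IsClosed (Δ' : Set (Pool.Agent.H93.CP.HC Cantor Unit)) :=
    hΔ.preimage continuous_toHC_symm
  have h1 : IsTopologicalGroup (Pool.Agent.H93.CP.HC Cantor Unit) :=
    (Pool.Agent.H93.CP.r_HTG Cantor Unit).1
  have h2 : PolishSpace (Pool.Agent.H93.CP.HC Cantor Unit) := Pool.Agent.H93.CP.r_HPO Cantor Unit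
  have h3 : PolishSpace Δ' := hcl.polishSpace
  have h4 : NonArchimedean (Pool.Agent.H93.CP.HC Cantor Unit) :=
    Pool.Agent.H93.CP.r_HNA Cantor Unit fun U hU => ⟨⊤, isOpen_univ, fun x _ => by
      rw [Subsingleton.elim x 1]
      exact mem_of_mem_nhds hU⟩
  have h5 : Continuous (fun p : Δ' × Cantor => p.1 • p.2) := by
    have h6 := (Pool.Agent.H93.CP.r_HTG Cantor Unit).2.1
    exact h6.comp ((continuous_subtype_val.comp continuous_fst).prodMk continuous_snd)
  have h7 := cantor_of NonArchimedean hb Δ' (nonArch_subgroup Δ' h4) h5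
  have h8 : Δ = Δ'.comap toHC.toMonoidHom := by
    ext h
    rfl
  rw [h8, cmh_iff, pmh_iff, ← cmo_iff, ← pmo_iff]
  exact h7

/-- The permutations that fix `0, ..., n - 1`. -/
def Fixing (n : ℕ) : Set (Equiv.Perm ℕ) := {g | ∀ i < n, g i = i}

/-- `x` is tame: for some `k` the closure of the orbit of `x` under the permutations that fix
`0, ..., k - 1` has a complete metric, compatible with its topology, such that for every `ε > 0`
there is `n` such that the permutations that fix `0, ..., n - 1` move the points of this closure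
(within it) by at most `ε`. -/
def Tame {X : Type} [TopologicalSpace X] [MulAction (Equiv.Perm ℕ) X] (x : X) : Prop :=
  ∃ k : ℕ, ∃ m : MetricSpace (closure {y : X | ∃ g ∈ Fixing k, g • x = y}),
    m.toPseudoMetricSpace.toUniformSpace.toTopologicalSpace = instTopologicalSpaceSubtype ∧
    @CompleteSpace _ m.toPseudoMetricSpace.toUniformSpace ∧
    ∀ ε > (0 : ℝ), ∃ n : ℕ, ∀ g ∈ Fixing n,
      ∀ y z : closure {y : X | ∃ g ∈ Fixing k, g • x = y}, g • (y : X) = z → m.dist z y ≤ ε

theorem infinite_symmetric (X : Type) [TopologicalSpace X] [TopologicalSpace.MetrizableSpace X]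
    [MeasurableSpace X] [BorelSpace X] [MulAction (Equiv.Perm ℕ) X]
    (hX : PolishSpace X ∨ SigmaCompactSpace X)
    (hc : @Continuous (Equiv.Perm ℕ × X) X
      (@instTopologicalSpaceProd _ _ permTopology _) _ (fun p => p.1 • p.2)) :
    (PerfectlyMany (SameOrbit (Equiv.Perm ℕ) X) ∨
      ∃ D : Set X, D.Countable ∧ ∀ x : X, Tame x → ∃ d ∈ D, SameOrbit (Equiv.Perm ℕ) X x d) ∧
    (SigmaCompactSpace X → (∀ x : X, Tame x) ∧ (CountablyMany (SameOrbit (Equiv.Perm ℕ) X) ∨
      PerfectlyMany (SameOrbit (Equiv.Perm ℕ) X))) := by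
  obtain ⟨h1, h2⟩ := Pool.Agent.H7.TM.dichotomy X hc hX
  have h3 : PerfectlyMany (SameOrbit (Equiv.Perm ℕ) X) ∨
      ∃ D : Set X, D.Countable ∧ ∀ x : X, Tame x → ∃ d ∈ D, SameOrbit (Equiv.Perm ℕ) X x d := by
    rcases h1 with ⟨f, hf, h⟩ | ⟨D, hD, h⟩
    · left
      exact ⟨f, hf, fun u v huv ⟨g, hg⟩ => h u v huv g hg⟩
    · right
      refine ⟨D, hD, fun x hx => ?_⟩
      obtain ⟨g, hg⟩ := h x hx
      exact ⟨g • x, hg, g, rfl⟩
  refine ⟨h3, fun hs => ⟨h2 hs, ?_⟩⟩
  rcases h3 with h | ⟨D, hD, h⟩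
  · exact Or.inr h
  · left
    refine ⟨D, hD, fun x => ?_⟩
    exact h x (h2 hs x)

/-! ### Isometry groups and groups with small locally compact pieces -/

/-- The topology of the isometry group of a metric space: pointwise convergence. -/
def isometryTopology (D : Type) [MetricSpace D] : TopologicalSpace (D ≃ᵢ D) :=
  TopologicalSpace.induced (fun g : D ≃ᵢ D => (g : D → D)) inferInstance

/-- `G` is topologically isomorphic to the isometry group of a locally compact Polish metric space
(a locally compact, complete, separable metric space). -/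
def IsometryGroup (G : Type) [Group G] [TopologicalSpace G] : Prop :=
  ∃ (D : Type) (_ : MetricSpace D) (_ : CompleteSpace D)
    (_ : TopologicalSpace.SeparableSpace D) (_ : LocallyCompactSpace D) (e : G ≃* (D ≃ᵢ D)),
    @IsHomeomorph G (D ≃ᵢ D) _ (isometryTopology D) e

/-- `R` is a closed subgroup, contained and normal in the open subgroup `H`, and `H / R` is locally
compact: `C * R` is a neighbourhood of `1` for some compact set `C`. -/
structure IsPiece {L : Type} [Group L] [TopologicalSpace L] (R H : Subgroup L) : Prop where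
  isOpen : IsOpen (H : Set L)
  isClosed : IsClosed (R : Set L)
  le : R ≤ H
  normal : ∀ h ∈ H, ∀ r ∈ R, h * r * h⁻¹ ∈ R
  compact : ∃ C : Set L, IsCompact C ∧ {g : L | ∃ c ∈ C, c⁻¹ * g ∈ R} ∈ 𝓝 (1 : L)

/-- `L` has small pieces: every neighbourhood of `1` contains a closed subgroup `R` which is normal
in an open subgroup `H` with `H / R` locally compact. (Kwiatkowska and Solecki: for Polish groups
this means that `L` is a closed subgroup of the isometry group of a locally compact separable
metric space.) -/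
def HasPieces (L : Type) [Group L] [TopologicalSpace L] : Prop :=
  ∀ U ∈ 𝓝 (1 : L), ∃ R H : Subgroup L, IsPiece R H ∧ ∀ r ∈ R, r ∈ U

/-- `G` is a continuous homomorphic image of a closed subgroup of a Polish group with locally
compact pieces. -/
def PiecesImage (G : Type) [Group G] [TopologicalSpace G] : Prop :=
  ∃ (L : Type) (_ : Group L) (_ : TopologicalSpace L) (_ : IsTopologicalGroup L)
    (_ : PolishSpace L) (M : Subgroup L) (φ : M →* G), HasPieces L ∧ IsClosed (M : Set L) ∧
      Continuous φ ∧ Function.Surjective φ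

theorem sp_of (L : Type) [Group L] [TopologicalSpace L] (h : HasPieces L) :
    Pool.Agent.H7.LR.SP L := by
  intro U hU
  obtain ⟨R, H, h1, h2⟩ := h U hU
  exact ⟨R, H, ⟨h1.isOpen, h1.isClosed, h1.le, h1.normal, h1.compact⟩, h2⟩

theorem of_sp (L : Type) [Group L] [TopologicalSpace L] (h : Pool.Agent.H7.LR.SP L) :
    HasPieces L := by
  intro U hU
  obtain ⟨R, H, h1, h2⟩ := h U hU
  exact ⟨R, H, ⟨h1.op, h1.cl, h1.le, h1.nor, h1.lc⟩, h2⟩

theorem pieces_of (L : Type) [Group L] [TopologicalSpace L]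
    (h : Nonempty (Pool.Agent.H7.LP.LPD L)) : HasPieces L := by
  obtain ⟨⟨H, R, h1, h2, h3, h4, h5⟩⟩ := h
  intro U hU
  obtain ⟨k, hk⟩ := h4 U hU
  exact ⟨R k, H k, ⟨(h1 k).op, (h1 k).cl, (h1 k).le, (h1 k).nor, (h1 k).lc⟩, hk⟩

/-- a closed subgroup of a group with locally compact pieces -/
theorem lpd_of (G : Type) [Group G] [TopologicalSpace G] (hG : PiecesImage G) :
    ∃ (L : Type) (_ : Group L) (_ : TopologicalSpace L) (_ : IsTopologicalGroup L)
      (_ : PolishSpace L) (M : Subgroup L) (φ : M →* G), Nonempty (Pool.Agent.H7.LP.LPD L) ∧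
      IsClosed (M : Set L) ∧ Continuous φ ∧ Function.Surjective φ := by
  obtain ⟨L, i1, i2, i3, i4, M, φ, hL, hM, hφ, hs⟩ := hG
  obtain ⟨N, j1, j2, j3, j4, χ, hN, hχ⟩ := Pool.Agent.H7.LR.r_KSE L (sp_of L hL)
  let e : M ≃* M.map χ := M.equivMapOfInjective χ hχ.injective
  have he : Continuous e.symm := by
    have h1 : Topology.IsInducing (fun m : M => χ m) :=
      hχ.isInducing.comp Topology.IsInducing.subtypeVal
    rw [h1.continuous_iff]
    have h2 : ((fun m : M => χ m) ∘ e.symm : M.map χ → N) = Subtype.val := by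
      funext y
      obtain ⟨m, rfl⟩ := e.surjective y
      simp only [Function.comp_apply, MulEquiv.symm_apply_apply]
      rfl
    rw [h2]
    exact continuous_subtype_val
  refine ⟨N, j1, j2, j3, j4, M.map χ, φ.comp e.symm.toMonoidHom, hN, ?_, hφ.comp he,
    hs.comp e.symm.surjective⟩
  rw [Subgroup.coe_map]
  exact hχ.isClosedMap _ hM

theorem image_of (L : Type) [Group L] [TopologicalSpace L] [IsTopologicalGroup L] [PolishSpace L]
    (h : HasPieces L) : PiecesImage L := by
  refine ⟨L, inferInstance, inferInstance, inferInstance, inferInstance, ⊤,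
    (⊤ : Subgroup L).subtype, h, isClosed_univ, continuous_subtype_val,
    fun x => ⟨⟨x, trivial⟩, rfl⟩⟩

/-! ### Countable structures -/

/-- A countable structure: countably many binary relations on `ℕ`; the `n`-th relation holds
between `i` and `j` if `w i j n = true`. -/
abbrev Structure : Type := ℕ → ℕ → ℕ → Bool

/-- Isomorphism of countable structures. -/
def Isomorphic (w w' : Structure) : Prop :=
  ∃ π : Equiv.Perm ℕ, ∀ i j n, w' i j n = w (π i) (π j) n

/-- A Borel class of countable structures: a Borel set of structures which is closed under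
isomorphism. (By a theorem of Lopez-Escobar these are the sets of the models of the sentences of
`L_{ω₁ω}`.) -/
def BorelClass (W : Set Structure) : Prop :=
  MeasurableSet W ∧ ∀ w w', w ∈ W → Isomorphic w w' → w' ∈ W

/-- Vaught's conjecture for `L_{ω₁ω}`: every Borel class of countable structures has countably or
perfectly many isomorphism types. -/
def VaughtConjecture : Prop :=
  ∀ W : Set Structure, BorelClass W →
    CountablyMany (fun w w' : W => Isomorphic w.1 w'.1) ∨
      PerfectlyMany (fun w w' : W => Isomorphic w.1 w'.1)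

/-- The orbits of `G` on `X` are classified by the isomorphism types of a Borel class of countable
structures, in both directions: there are Borel maps `u : X → W` and `v : W → X` such that `x`, `y`
are in one orbit if and only if `u x`, `u y` are isomorphic, and `u (v w)` is isomorphic to `w`. -/
def Classified (G X : Type) [Group G] [MulAction G X] [MeasurableSpace X] : Prop :=
  ∃ (W : Set Structure) (u : X → W) (v : W → X), BorelClass W ∧ Measurable u ∧ Measurable v ∧
    (∀ x y, SameOrbit G X x y ↔ Isomorphic (u x).1 (u y).1) ∧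
    ∀ w : W, Isomorphic (u (v w)).1 w.1

theorem iso_symm {w w' : Structure} (h : Isomorphic w w') : Isomorphic w' w := by
  obtain ⟨π, h⟩ := h
  refine ⟨π⁻¹, fun i j n => ?_⟩
  rw [h]
  simp

theorem iso_trans {w w' w'' : Structure} (h : Isomorphic w w') (h' : Isomorphic w' w'') :
    Isomorphic w w'' := by
  obtain ⟨π, h⟩ := h
  obtain ⟨ρ, h'⟩ := h'
  refine ⟨π * ρ, fun i j n => ?_⟩
  rw [h', h]
  rfl

/-- the classification -/
theorem classified (G X : Type) [TopologicalSpace G] [Group G] [IsTopologicalGroup G]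
    [PolishSpace G] [MeasurableSpace G] [BorelSpace G] [MeasurableSpace X] [StandardBorelSpace X]
    [MulAction G X] [MeasurableSMul₂ G X] (hG : PiecesImage G) : Classified G X := by
  obtain ⟨L, i1, i2, i3, i4, M, φ, ⟨D⟩, hM, hφ, hs⟩ := lpd_of G hG
  let _ : MeasurableSpace L := borel L
  have : BorelSpace L := ⟨rfl⟩
  let aM : MulAction M X := MulAction.compHom X φ
  have hsm : ∀ (m : M) (x : X), m • x = φ m • x := fun _ _ => rfl
  have hme : MeasurableSMul₂ M X := by
    refine ⟨?_⟩
    have h1 : Measurable (fun p : M × X => (φ p.1, p.2)) :=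
      (hφ.measurable.comp measurable_fst).prodMk measurable_snd
    have h2 : Measurable (fun p : G × X => p.1 • p.2) := measurable_smul
    exact h2.comp h1
  obtain ⟨W, u, hW, hinv, hu, huW, huo, v, hv, hvu⟩ := Pool.Agent.H7.LQ.r_TRS L X D M hM
  refine ⟨W, fun x => ⟨u x, huW x⟩, v, ⟨hW, hinv⟩, hu.subtype_mk, hv, fun x y => ?_, hvu⟩
  refine Iff.trans ?_ (huo x y)
  constructor
  · rintro ⟨g, hg⟩
    obtain ⟨m, rfl⟩ := hs g
    exact ⟨m, hg⟩
  · rintro ⟨m, hm⟩
    exact ⟨φ m, hm⟩

theorem cm_of (G X : Type) [Group G] [MulAction G X] [MeasurableSpace X] (W : Set Structure)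
    (u : X → W) (v : W → X) (hu : Measurable u) (hv : Measurable v)
    (h1 : ∀ x y, SameOrbit G X x y ↔ Isomorphic (u x).1 (u y).1)
    (h2 : ∀ w : W, Isomorphic (u (v w)).1 w.1) :
    (CountablyMany (fun w w' : W => Isomorphic w.1 w'.1) ↔ CountablyMany (SameOrbit G X)) ∧
    (PerfectlyMany (fun w w' : W => Isomorphic w.1 w'.1) ↔ PerfectlyMany (SameOrbit G X)) := by
  refine ⟨⟨?_, ?_⟩, ⟨?_, ?_⟩⟩
  · rintro ⟨A, hA, h⟩
    refine ⟨v '' A, hA.image _, fun x => ?_⟩
    obtain ⟨a, ha, hxa⟩ := h (u x)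
    exact ⟨v a, ⟨a, ha, rfl⟩, (h1 _ _).2 (iso_trans hxa (iso_symm (h2 a)))⟩
  · rintro ⟨A, hA, h⟩
    refine ⟨u '' A, hA.image _, fun w => ?_⟩
    obtain ⟨a, ha, hwa⟩ := h (v w)
    exact ⟨u a, ⟨a, ha, rfl⟩, iso_trans (iso_symm (h2 w)) ((h1 _ _).1 hwa)⟩
  · rintro ⟨f, hf, h⟩
    refine ⟨v ∘ f, hv.comp hf, fun s t hst hc => h s t hst ?_⟩
    exact iso_trans (iso_symm (h2 _)) (iso_trans ((h1 _ _).1 hc) (h2 _))
  · rintro ⟨f, hf, h⟩
    exact ⟨u ∘ f, hu.comp hf, fun s t hst hc => h s t hst ((h1 _ _).2 hc)⟩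

/-- a Borel class as a Borel space of a non-archimedean group -/
theorem group_of (W : Set Structure) (hW : BorelClass W) :
    ∃ (P : Type) (_ : TopologicalSpace P) (_ : Group P) (_ : IsTopologicalGroup P)
      (_ : PolishSpace P) (_ : MeasurableSpace P) (_ : BorelSpace P) (_ : MulAction P W)
      (_ : MeasurableSMul₂ P W), NonArchimedean P ∧
      (CountablyMany (SameOrbit P W) ↔ CountablyMany (fun w w' : W => Isomorphic w.1 w'.1)) ∧
      (PerfectlyMany (SameOrbit P W) ↔ PerfectlyMany (fun w w' : W => Isomorphic w.1 w'.1)) := by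
  obtain ⟨P, j1, j2, j3, j4, j5, j6, j7, j8, h1, h2⟩ := Pool.Agent.H7.LQ.r_PGR W hW.1 hW.2
  refine ⟨P, j1, j2, j3, j4, j5, j6, j7, j8, h1, ?_, ?_⟩
  · constructor
    · rintro ⟨A, hA, h⟩
      refine ⟨A, hA, fun w => ?_⟩
      obtain ⟨a, ha, hw⟩ := h w
      exact ⟨a, ha, (h2 _ _).1 hw⟩
    · rintro ⟨A, hA, h⟩
      refine ⟨A, hA, fun w => ?_⟩
      obtain ⟨a, ha, hw⟩ := h w
      exact ⟨a, ha, (h2 _ _).2 hw⟩
  · constructor
    · rintro ⟨f, hf, h⟩
      exact ⟨f, hf, fun s t hst hc => h s t hst ((h2 _ _).2 hc)⟩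
    · rintro ⟨f, hf, h⟩
      exact ⟨f, hf, fun s t hst hc => h s t hst ((h2 _ _).1 hc)⟩

/-- the transfer -/
theorem transfer (G X : Type) [TopologicalSpace G] [Group G] [IsTopologicalGroup G]
    [PolishSpace G] [MeasurableSpace G] [BorelSpace G] [MeasurableSpace X] [StandardBorelSpace X]
    [MulAction G X] [MeasurableSMul₂ G X] (hG : PiecesImage G) :
    ∃ (P Z : Type) (_ : TopologicalSpace P) (_ : Group P) (_ : IsTopologicalGroup P)
      (_ : PolishSpace P) (_ : MeasurableSpace P) (_ : BorelSpace P)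
      (_ : MeasurableSpace Z) (_ : StandardBorelSpace Z) (_ : MulAction P Z)
      (_ : MeasurableSMul₂ P Z), NonArchimedean P ∧
      (CountablyMany (SameOrbit P Z) ↔ CountablyMany (SameOrbit G X)) ∧
      (PerfectlyMany (SameOrbit P Z) ↔ PerfectlyMany (SameOrbit G X)) := by
  obtain ⟨W, u, v, hW, hu, hv, h1, h2⟩ := classified G X hG
  obtain ⟨P, j1, j2, j3, j4, j5, j6, j7, j8, k1, k2, k3⟩ := group_of W hW
  have hst : StandardBorelSpace W := hW.1.standardBorel
  obtain ⟨c1, c2⟩ := cm_of G X W u v hu hv h1 h2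
  exact ⟨P, W, j1, j2, j3, j4, j5, j6, inferInstance, hst, j7, j8, k1, k2.trans c1, k3.trans c2⟩

theorem image_of_isometry (G : Type) [Group G] [TopologicalSpace G] (h : IsometryGroup G) :
    PiecesImage G := by
  obtain ⟨D, i1, i2, i3, i4, e, he⟩ := h
  obtain ⟨L, j1, j2, j3, j4, φ, hL, hφ⟩ := Pool.Agent.H7.LP.r_X9 D
  let τ : TopologicalSpace (D ≃ᵢ D) := isometryTopology D
  have hφ' : Topology.IsClosedEmbedding φ := hφ
  let ψ : φ.range ≃* (D ≃ᵢ D) := (MonoidHom.ofInjective hφ'.injective).symm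
  have hψ : Continuous ψ := by
    have h1 : Topology.IsInducing φ := hφ'.isInducing
    rw [h1.continuous_iff]
    have h2 : (φ ∘ ψ : φ.range → L) = Subtype.val := by
      funext y
      obtain ⟨g, rfl⟩ := (MonoidHom.ofInjective hφ'.injective).surjective y
      simp only [ψ, Function.comp_apply, MulEquiv.symm_apply_apply]
      rfl
    rw [h2]
    exact continuous_subtype_val
  refine ⟨L, j1, j2, j3, j4, φ.range, e.symm.toMonoidHom.comp ψ.toMonoidHom, pieces_of L hL, ?_,
    ?_, ?_⟩
  · rw [MonoidHom.coe_range]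
    exact hφ'.isClosed_range
  · have h1 : Continuous e.symm := by
      refine ⟨fun U hU => ?_⟩
      have h2 := he.isOpenMap U hU
      have h3 : e '' U = e.symm ⁻¹' U := e.toEquiv.image_eq_preimage_symm U
      rw [h3] at h2
      exact h2
    exact h1.comp hψ
  · exact e.symm.surjective.comp ψ.surjective

theorem nonArch_of_isometry (hb : Conjecture IsometryGroup) : Conjecture NonArchimedean := by
  intro G _ _ _ _ _ _ X _ _ _ _ hG
  obtain ⟨D, i1, i2, i3, i4, φ, hφ⟩ := Pool.Agent.H7.LP.r_ISD G hG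
  obtain ⟨k1, k2, -⟩ := Pool.Agent.H7.LP.r_X6 D
  let _ : MeasurableSpace (D ≃ᵢ D) := borel _
  have : BorelSpace (D ≃ᵢ D) := ⟨rfl⟩
  let ψ : G ≃* φ.range := MonoidHom.ofInjective hφ.injective
  have hψc : Continuous ψ.symm := by
    rw [hφ.isInducing.continuous_iff]
    have h2 : (φ ∘ ψ.symm : φ.range → (D ≃ᵢ D)) = Subtype.val := by
      funext y
      obtain ⟨g, rfl⟩ := ψ.surjective y
      simp only [Function.comp_apply, MulEquiv.symm_apply_apply]
      rfl
    rw [h2]
    exact continuous_subtype_val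
  let aM : MulAction φ.range X := MulAction.compHom X ψ.symm.toMonoidHom
  have hsm : ∀ (m : φ.range) (x : X), m • x = ψ.symm m • x := fun _ _ => rfl
  have hme : MeasurableSMul₂ φ.range X := by
    refine ⟨?_⟩
    have h1 : Measurable (fun p : φ.range × X => (ψ.symm p.1, p.2)) :=
      (hψc.measurable.comp measurable_fst).prodMk measurable_snd
    have h2 : Measurable (fun p : G × X => p.1 • p.2) := measurable_smul
    exact h2.comp h1
  have hcl : IsClosed (φ.range : Set (D ≃ᵢ D)) := by
    rw [MonoidHom.coe_range]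
    exact hφ.isClosed_range
  obtain ⟨Z, j7, j8, j9, j10, h1, h2⟩ := Pool.Agent.H7.LP.r_IND (D ≃ᵢ D) X φ.range hcl
  have hiso : IsometryGroup (D ≃ᵢ D) :=
    ⟨D, i1, i2, i3, i4, MulEquiv.refl _, (Homeomorph.refl _).isHomeomorph⟩
  have hc := hb (D ≃ᵢ D) Z hiso
  rw [cmo_iff, pmo_iff, h1, h2] at hc
  rcases hc with ⟨A, hA, h⟩ | ⟨f, hf, h⟩
  · left
    refine ⟨A, hA, fun x => ?_⟩
    obtain ⟨m, hm⟩ := h x
    exact ⟨m • x, hm, ψ.symm m, rfl⟩
  · right
    refine ⟨f, hf, fun u v huv ⟨g, hg⟩ => h u v huv (ψ g) ?_⟩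
    rw [hsm, MulEquiv.symm_apply_apply]
    exact hg

/-- **Theorem.** The orbits of an isometry group of a locally compact Polish metric space (and of
images of closed subgroups of Polish groups with small pieces) on any Borel space are
classified by a Borel class of countable structures, in both directions. So Vaught's conjecture is
equivalent to Q1 for these groups, to the dichotomy for closed subgroups of the homeomorphism group
of the Cantor space, and to the dichotomy for double cosets in non-archimedean groups. For all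
Polish groups, continuous actions on the Cantor space, and double cosets, are the whole topological
Vaught conjecture; for `S_∞` itself, continuous actions on the Cantor space, and on all `σ`-compact
metrizable spaces, satisfy it. -/
theorem result :
    (∀ (G X : Type) [TopologicalSpace G] [Group G] [IsTopologicalGroup G] [PolishSpace G]
      [MeasurableSpace G] [BorelSpace G] [MeasurableSpace X] [StandardBorelSpace X]
      [MulAction G X] [MeasurableSMul₂ G X],
      (PiecesImage G → Classified G X) ∧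
      (PiecesImage G → ∃ Δ : Subgroup (Cantor ≃ₜ Cantor),
        IsClosed[homeoTopology] (Δ : Set (Cantor ≃ₜ Cantor)) ∧
        (CountablyMany (SameHomeoOrbit Δ) ↔ CountablyMany (SameOrbit G X)) ∧
        (PerfectlyMany (SameHomeoOrbit Δ) ↔ PerfectlyMany (SameOrbit G X))) ∧
      (∃ (Γ : Type) (_ : TopologicalSpace Γ) (_ : Group Γ) (_ : IsTopologicalGroup Γ)
        (_ : PolishSpace Γ) (_ : MulAction Γ Cantor),
        Continuous (fun p : Γ × Cantor => p.1 • p.2) ∧ (PiecesImage G → NonArchimedean Γ) ∧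
        (CountablyMany (SameOrbit Γ Cantor) ↔ CountablyMany (SameOrbit G X)) ∧
        (PerfectlyMany (SameOrbit Γ Cantor) ↔ PerfectlyMany (SameOrbit G X))) ∧
      (∃ (L : Type) (_ : TopologicalSpace L) (_ : Group L) (_ : IsTopologicalGroup L)
        (_ : PolishSpace L) (_ : MeasurableSpace L) (_ : BorelSpace L) (H K : Subgroup L),
        IsClosed (H : Set L) ∧ IsClosed (K : Set L) ∧ (PiecesImage G → NonArchimedean L) ∧
        (CountablyMany (SameDoubleCoset H K) ↔ CountablyMany (SameOrbit G X)) ∧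
        (PerfectlyMany (SameDoubleCoset H K) ↔ PerfectlyMany (SameOrbit G X)))) ∧
    (VaughtConjecture ↔ Conjecture NonArchimedean) ∧
    (VaughtConjecture ↔ Conjecture IsometryGroup) ∧
    (VaughtConjecture ↔ Conjecture PiecesImage) ∧
    (VaughtConjecture ↔ HomeoCase) ∧
    (VaughtConjecture ↔ DoubleCosetCase NonArchimedean) ∧
    (Conjecture (fun _ => True) ↔ CantorCase) ∧
    (Conjecture (fun _ => True) ↔ DoubleCosetCase (fun _ => True)) ∧
    (∀ (G : Type) [Group G] [TopologicalSpace G] [IsTopologicalGroup G] [PolishSpace G],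
      (LocallyCompactSpace G → HasPieces G) ∧ (NonArchimedean G → HasPieces G) ∧
      (HasPieces G → PiecesImage G) ∧ (IsometryGroup G → PiecesImage G)) ∧
    (∀ (G : ℕ → Type) [∀ n, Group (G n)] [∀ n, TopologicalSpace (G n)]
      [∀ n, IsTopologicalGroup (G n)] [∀ n, PolishSpace (G n)],
      (∀ n, HasPieces (G n)) → HasPieces (∀ n, G n)) ∧
    ∀ (X : Type) [TopologicalSpace X] [TopologicalSpace.MetrizableSpace X]
      [MeasurableSpace X] [BorelSpace X] [MulAction (Equiv.Perm ℕ) X],
      (PolishSpace X ∨ SigmaCompactSpace X) →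
      @Continuous (Equiv.Perm ℕ × X) X (@instTopologicalSpaceProd _ _ permTopology _) _
        (fun p => p.1 • p.2) →
      (PerfectlyMany (SameOrbit (Equiv.Perm ℕ) X) ∨
        ∃ D : Set X, D.Countable ∧ ∀ x : X, Tame x → ∃ d ∈ D, SameOrbit (Equiv.Perm ℕ) X x d) ∧
      (SigmaCompactSpace X → (∀ x : X, Tame x) ∧ (CountablyMany (SameOrbit (Equiv.Perm ℕ) X) ∨
        PerfectlyMany (SameOrbit (Equiv.Perm ℕ) X))) := by
  have T1 : ∀ (G X : Type) [TopologicalSpace G] [Group G] [IsTopologicalGroup G] [PolishSpace G]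
      [MeasurableSpace G] [BorelSpace G] [MeasurableSpace X] [StandardBorelSpace X]
      [MulAction G X] [MeasurableSMul₂ G X],
      ∃ (Γ : Type) (_ : TopologicalSpace Γ) (_ : Group Γ) (_ : IsTopologicalGroup Γ)
        (_ : PolishSpace Γ) (_ : MulAction Γ Cantor),
        Continuous (fun p : Γ × Cantor => p.1 • p.2) ∧ (PiecesImage G → NonArchimedean Γ) ∧
        (CountablyMany (SameOrbit Γ Cantor) ↔ CountablyMany (SameOrbit G X)) ∧
        (PerfectlyMany (SameOrbit Γ Cantor) ↔ PerfectlyMany (SameOrbit G X)) := by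
    intro G X _ _ _ _ _ _ _ _ _ _
    by_cases hG : PiecesImage G
    · obtain ⟨P, Z, j1, j2, j3, j4, j5, j6, j7, j8, j9, j10, k1, k2, k3⟩ := transfer G X hG
      obtain ⟨Γ, h1, h2, h3, h4, h5, h6, h7, h8, h9⟩ := reduction_one P Z
      exact ⟨Γ, h1, h2, h3, h4, h5, h6, fun _ => h7 k1, h8.trans k2, h9.trans k3⟩
    · obtain ⟨Γ, h1, h2, h3, h4, h5, h6, h7, h8, h9⟩ := reduction_one G X
      exact ⟨Γ, h1, h2, h3, h4, h5, h6, fun h => absurd h hG, h8, h9⟩
  have H1 : ∀ (G X : Type) [TopologicalSpace G] [Group G] [IsTopologicalGroup G] [PolishSpace G]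
      [MeasurableSpace G] [BorelSpace G] [MeasurableSpace X] [StandardBorelSpace X]
      [MulAction G X] [MeasurableSMul₂ G X],
      ∃ (L : Type) (_ : TopologicalSpace L) (_ : Group L) (_ : IsTopologicalGroup L)
        (_ : PolishSpace L) (_ : MeasurableSpace L) (_ : BorelSpace L) (H K : Subgroup L),
        IsClosed (H : Set L) ∧ IsClosed (K : Set L) ∧ (PiecesImage G → NonArchimedean L) ∧
        (CountablyMany (SameDoubleCoset H K) ↔ CountablyMany (SameOrbit G X)) ∧
        (PerfectlyMany (SameDoubleCoset H K) ↔ PerfectlyMany (SameOrbit G X)) := by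
    intro G X _ _ _ _ _ _ _ _ _ _
    obtain ⟨Γ, h1, h2, h3, h4, h5, h6, h7, h8, h9⟩ := T1 G X
    obtain ⟨L, i1, i2, i3, i4, i5, i6, H, K, hH, hK, i7, i8, i9⟩ := reduction_two Γ h6
    exact ⟨L, i1, i2, i3, i4, i5, i6, H, K, hH, hK, fun h => i7 (h7 h), i8.trans h8,
      i9.trans h9⟩
  have H2 : ∀ (G X : Type) [TopologicalSpace G] [Group G] [IsTopologicalGroup G] [PolishSpace G]
      [MeasurableSpace G] [BorelSpace G] [MeasurableSpace X] [StandardBorelSpace X]
      [MulAction G X] [MeasurableSMul₂ G X],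
      PiecesImage G → ∃ Δ : Subgroup (Cantor ≃ₜ Cantor),
        IsClosed[homeoTopology] (Δ : Set (Cantor ≃ₜ Cantor)) ∧
        (CountablyMany (SameHomeoOrbit Δ) ↔ CountablyMany (SameOrbit G X)) ∧
        (PerfectlyMany (SameHomeoOrbit Δ) ↔ PerfectlyMany (SameOrbit G X)) := by
    intro G X _ _ _ _ _ _ _ _ _ _ hG
    obtain ⟨P, Z, j1, j2, j3, j4, j5, j6, j7, j8, j9, j10, k1, k2, k3⟩ := transfer G X hG
    obtain ⟨Δ, hΔ, h8, h9⟩ := Pool.Agent.H93.CP.r_NAR P Z k1
    refine ⟨Δ.comap toHC.toMonoidHom, closed_comap Δ hΔ, ?_, ?_⟩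
    · rw [cmh_iff, ← k2, cmo_iff, h8]
    · rw [pmh_iff, ← k3, pmo_iff, h9]
  have hN : ∀ (G : Type) [Group G] [TopologicalSpace G] [IsTopologicalGroup G] [PolishSpace G],
      NonArchimedean G → HasPieces G := fun G _ _ _ _ h =>
    pieces_of G (Pool.Agent.H7.LP.r_X2 G h)
  have hNP : Conjecture PiecesImage → Conjecture NonArchimedean := by
    intro hb G _ _ _ _ _ _ X _ _ _ _ hG
    exact hb G X (image_of G (hN G hG))
  have hVP : VaughtConjecture → Conjecture PiecesImage := by
    intro hb G _ _ _ _ _ _ X _ _ _ _ hG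
    obtain ⟨W, u, v, hW, hu, hv, h1, h2⟩ := classified G X hG
    obtain ⟨c1, c2⟩ := cm_of G X W u v hu hv h1 h2
    rw [← c1, ← c2]
    exact hb W hW
  have hNV : Conjecture NonArchimedean → VaughtConjecture := by
    intro hb W hW
    obtain ⟨P, j1, j2, j3, j4, j5, j6, j7, j8, k1, k2, k3⟩ := group_of W hW
    have hst : StandardBorelSpace W := hW.1.standardBorel
    rw [← k2, ← k3]
    exact hb P W k1
  have hHP : HomeoCase → Conjecture PiecesImage := by
    intro hb G _ _ _ _ _ _ X _ _ _ _ hG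
    obtain ⟨Δ, hΔ, h8, h9⟩ := H2 G X hG
    rw [← h8, ← h9]
    exact hb Δ hΔ
  have hDP : DoubleCosetCase NonArchimedean → Conjecture PiecesImage := by
    intro hb G _ _ _ _ _ _ X _ _ _ _ hG
    obtain ⟨L, i1, i2, i3, i4, i5, i6, H, K, hH, hK, i7, i8, i9⟩ := H1 G X
    rw [← i8, ← i9]
    exact hb L H K (i7 hG) hH hK
  refine ⟨fun G X _ _ _ _ _ _ _ _ _ _ => ⟨classified G X, H2 G X, T1 G X, H1 G X⟩,
    ⟨fun hb => hNP (hVP hb), hNV⟩, ⟨fun hb => ?_, fun hb => hNV (nonArch_of_isometry hb)⟩,
    ⟨hVP, fun hb => hNV (hNP hb)⟩,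
    ⟨fun hb => homeo_of (hNP (hVP hb)), fun hb => hNV (hNP (hHP hb))⟩,
    ⟨fun hb => ?_, fun hb => hNV (hNP (hDP hb))⟩,
    ⟨fun hb G _ _ _ _ _ hc => cantor_of (fun _ => True) hb G trivial hc, fun hb => ?_⟩,
    ⟨fun hb => ?_, fun hb => ?_⟩, ?_, ?_, ?_⟩
  · intro G _ _ _ _ _ _ X _ _ _ _ hG
    exact hVP hb G X (image_of_isometry G hG)
  · exact doubleCoset_of NonArchimedean (hNP (hVP hb)) fun L _ _ _ H K hL => nonArch_prod _ _
      (nonArch_subgroup H hL) (nonArch_subgroup K hL)
  · intro G _ _ _ _ _ _ X _ _ _ _ hG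
    obtain ⟨Γ, h1, h2, h3, h4, h5, h6, h7, h8, h9⟩ := reduction_one G X
    rw [← h8, ← h9]
    exact hb Γ h6
  · exact doubleCoset_of (fun _ => True) hb fun _ _ _ _ _ _ _ => trivial
  · intro G _ _ _ _ _ _ X _ _ _ _ hG
    obtain ⟨L, i1, i2, i3, i4, i5, i6, H, K, hH, hK, i7, i8, i9⟩ := H1 G X
    rw [← i8, ← i9]
    exact hb L H K trivial hH hK
  · intro G _ _ _ _
    refine ⟨fun h => pieces_of G (Pool.Agent.H7.LP.r_X1 G), hN G, image_of G,
      image_of_isometry G⟩
  · intro G _ _ _ _ hG
    exact of_sp _ (Pool.Agent.H7.LR.r_KSP G fun n => sp_of _ (hG n))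
  · intro X _ _ _ _ _ hX hc
    exact infinite_symmetric X hX hc

end Pool.Agent.Results.MP_5607ba_lc.IsometryGroups
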